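import Mathlib

/-! Complete filtered rings whose graded ring is a polynomial ring. -/

set_option autoImplicit false

namespace Pool.Agent.P.MP_7cb106_nt.PF

open MvPolynomial

section
variable {F ι Λ : Type} [Field F] [Ring Λ] [Algebra F Λ]

/-- a complete filtered ring with graded ring the polynomial ring, filtration indexed by `ℕ` -/
structure FR (μ : ι → ℕ) (ev : MvPolynomial ι F →ₗ[F] Λ) (Fl : ℕ → Submodule F Λ) : Prop where
  pos : ∀ i, 0 < μ i
  top : Fl 0 = ⊤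
  anti : Antitone Fl
  mul : ∀ {s t : ℕ} {a b : Λ}, a ∈ Fl s → b ∈ Fl t → a * b ∈ Fl (s + t)
  ev_mem : ∀ {t : ℕ} {P : MvPolynomial ι F}, P.IsWeightedHomogeneous μ t → ev P ∈ Fl t
  ev_mul : ∀ {s t : ℕ} {P Q : MvPolynomial ι F}, P.IsWeightedHomogeneous μ s →
    Q.IsWeightedHomogeneous μ t → ev P * ev Q - ev (P * Q) ∈ Fl (s + t + 1)
  span : ∀ {t : ℕ} {a : Λ}, a ∈ Fl t → ∃ P : MvPolynomial ι F, P.IsWeightedHomogeneous μ t ∧
    a - ev P ∈ Fl (t + 1)
  ind : ∀ {t : ℕ} {P : MvPolynomial ι F}, P.IsWeightedHomogeneous μ t → ev P ∈ Fl (t + 1) → P = 0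
  complete : ∀ a : ℕ → Λ, (∀ t, a (t + 1) - a t ∈ Fl t) → ∃ b, ∀ t, b - a t ∈ Fl t
  sep : ∀ a : Λ, (∀ t, a ∈ Fl t) → a = 0

/-- the same with the filtration indexed by `ℤ` -/
structure FZ (μ : ι → ℤ) (ev : MvPolynomial ι F →ₗ[F] Λ) (Fl : ℤ → Submodule F Λ) : Prop where
  pos : ∀ i, 0 < μ i
  top : ∀ t, t ≤ 0 → Fl t = ⊤
  anti : Antitone Fl
  mul : ∀ {s t : ℤ} {a b : Λ}, a ∈ Fl s → b ∈ Fl t → a * b ∈ Fl (s + t)
  ev_mem : ∀ {t : ℤ} {P : MvPolynomial ι F}, P.IsWeightedHomogeneous μ t → ev P ∈ Fl t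
  ev_mul : ∀ {s t : ℤ} {P Q : MvPolynomial ι F}, P.IsWeightedHomogeneous μ s →
    Q.IsWeightedHomogeneous μ t → ev P * ev Q - ev (P * Q) ∈ Fl (s + t + 1)
  span : ∀ {t : ℤ} {a : Λ}, a ∈ Fl t → ∃ P : MvPolynomial ι F, P.IsWeightedHomogeneous μ t ∧
    a - ev P ∈ Fl (t + 1)
  ind : ∀ {t : ℤ} {P : MvPolynomial ι F}, P.IsWeightedHomogeneous μ t → ev P ∈ Fl (t + 1) → P = 0
  complete : ∀ (s : ℤ) (a : ℕ → Λ), (∀ k : ℕ, a (k + 1) - a k ∈ Fl (s + k)) →
    ∃ b, ∀ k : ℕ, b - a k ∈ Fl (s + k)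
  sep : ∀ (s : ℤ) (a : Λ), (∀ k : ℕ, a ∈ Fl (s + k)) → a = 0

/-- `P` is the symbol of `a` in degree `t` -/
def Sy (μ : ι → ℤ) (ev : MvPolynomial ι F →ₗ[F] Λ) (Fl : ℤ → Submodule F Λ) (t : ℤ) (a : Λ)
    (P : MvPolynomial ι F) : Prop :=
  P.IsWeightedHomogeneous μ t ∧ a - ev P ∈ Fl (t + 1)

variable {μ : ι → ℤ} {ev : MvPolynomial ι F →ₗ[F] Λ} {Fl : ℤ → Submodule F Λ}

theorem FZ.sy_ev (_h : FZ μ ev Fl) {t : ℤ} {P : MvPolynomial ι F}
    (hP : P.IsWeightedHomogeneous μ t) : Sy μ ev Fl t (ev P) P := ⟨hP, by simp⟩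

theorem FZ.exists_sy (h : FZ μ ev Fl) {t : ℤ} {a : Λ} (ha : a ∈ Fl t) : ∃ P, Sy μ ev Fl t a P :=
  h.span ha

theorem FZ.sy_mem (h : FZ μ ev Fl) {t : ℤ} {a : Λ} {P : MvPolynomial ι F}
    (ha : Sy μ ev Fl t a P) : a ∈ Fl t := by
  have := add_mem (h.anti (by omega : t ≤ t + 1) ha.2) (h.ev_mem ha.1)
  rwa [sub_add_cancel] at this

theorem sy_zero {t : ℤ} {a : Λ} (ha : a ∈ Fl (t + 1)) : Sy μ ev Fl t a 0 :=
  ⟨isWeightedHomogeneous_zero _ _ _, by simpa using ha⟩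

theorem Sy.mem_succ {t : ℤ} {a : Λ} (ha : Sy μ ev Fl t a 0) : a ∈ Fl (t + 1) := by
  simpa using ha.2

theorem Sy.add {t : ℤ} {a b : Λ} {P Q : MvPolynomial ι F} (ha : Sy μ ev Fl t a P)
    (hb : Sy μ ev Fl t b Q) : Sy μ ev Fl t (a + b) (P + Q) :=
  ⟨ha.1.add hb.1, by
    have := add_mem ha.2 hb.2
    rwa [map_add, ← sub_add_sub_comm]⟩

theorem Sy.sub {t : ℤ} {a b : Λ} {P Q : MvPolynomial ι F} (ha : Sy μ ev Fl t a P)
    (hb : Sy μ ev Fl t b Q) : Sy μ ev Fl t (a - b) (P - Q) :=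
  ⟨ha.1.sub hb.1, by
    have := sub_mem ha.2 hb.2
    rwa [map_sub, ← sub_sub_sub_comm]⟩

theorem Sy.sum {κ : Type} (s : Finset κ) {t : ℤ} {a : κ → Λ} {P : κ → MvPolynomial ι F}
    (ha : ∀ i ∈ s, Sy μ ev Fl t (a i) (P i)) : Sy μ ev Fl t (∑ i ∈ s, a i) (∑ i ∈ s, P i) :=
  ⟨IsWeightedHomogeneous.sum s P t fun i hi => (ha i hi).1, by
    rw [map_sum, ← Finset.sum_sub_distrib]
    exact sum_mem fun i hi => (ha i hi).2⟩

theorem FZ.sy_mul (h : FZ μ ev Fl) {s t u : ℤ} {a b : Λ} {P Q : MvPolynomial ι F}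
    (ha : Sy μ ev Fl s a P) (hb : Sy μ ev Fl t b Q) (hu : s + t = u) :
    Sy μ ev Fl u (a * b) (P * Q) := by
  subst hu
  refine ⟨ha.1.mul hb.1, ?_⟩
  have h1 := h.mul ha.2 (h.sy_mem hb)
  have h2 := h.mul (h.ev_mem ha.1) hb.2
  have h3 := h.ev_mul ha.1 hb.1
  rw [add_right_comm] at h1
  rw [← add_assoc] at h2
  have e : a * b - ev (P * Q) =
      (a - ev P) * b + ev P * (b - ev Q) + (ev P * ev Q - ev (P * Q)) := by noncomm_ring
  rw [e]
  exact add_mem (add_mem h1 h2) h3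

theorem FZ.sy_eq_zero (h : FZ μ ev Fl) {t : ℤ} {a : Λ} {P : MvPolynomial ι F}
    (ha : Sy μ ev Fl t a P) (h0 : a ∈ Fl (t + 1)) : P = 0 := by
  refine h.ind ha.1 ?_
  have := sub_mem h0 ha.2
  rwa [sub_sub_cancel] at this

theorem FZ.sy_unique (h : FZ μ ev Fl) {t : ℤ} {a : Λ} {P Q : MvPolynomial ι F}
    (ha : Sy μ ev Fl t a P) (hb : Sy μ ev Fl t a Q) : P = Q :=
  sub_eq_zero.1 (h.sy_eq_zero (ha.sub hb) (by simp))

theorem comp_mul (μ : ι → ℤ) {s t u : ℤ} (q : MvPolynomial ι F) {P : MvPolynomial ι F}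
    (hP : P.IsWeightedHomogeneous μ t) (hu : s + t = u) :
    weightedHomogeneousComponent μ u (q * P) = weightedHomogeneousComponent μ s q * P := by
  classical
  induction q using MvPolynomial.induction_on' with
  | monomial α c =>
    have h1 : (monomial α c).IsWeightedHomogeneous μ (Finsupp.weight μ α) :=
      isWeightedHomogeneous_monomial μ α c rfl
    rw [weightedHomogeneousComponent_of_mem (h1.mul hP), weightedHomogeneousComponent_of_mem h1]
    by_cases h : s = Finsupp.weight μ α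
    · rw [if_pos h, if_pos (by omega)]
    · rw [if_neg h, if_neg (by omega), zero_mul]
  | add p q hp hq => rw [add_mul, map_add, map_add, hp, hq, add_mul]

/-- the ideal of the symbols of a left ideal -/
noncomputable def grI (μ : ι → ℤ) (ev : MvPolynomial ι F →ₗ[F] Λ) (Fl : ℤ → Submodule F Λ) (J : Submodule Λ Λ) :
    Ideal (MvPolynomial ι F) :=
  Ideal.span {P | ∃ t, ∃ a ∈ J, Sy μ ev Fl t a P}

/-- the filtration of a free module -/
def FlM {T : Type} (Fl : T → Submodule F Λ) (r : ℕ) (s : T) : Submodule F (Fin r → Λ) :=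
  Submodule.pi Set.univ fun _ => Fl s

theorem mem_FlM {T : Type} {Fl : T → Submodule F Λ} {r : ℕ} {s : T} {m : Fin r → Λ} :
    m ∈ FlM Fl r s ↔ ∀ i, m i ∈ Fl s := by
  simp [FlM, Submodule.mem_pi]

end

/-- a matrix acting on vectors with entries in a module -/
def act {R N a b : Type} [Ring R] [AddCommGroup N] [Module R N] [Fintype b] (d : Matrix a b R)
    (v : b → N) : a → N := fun i => ∑ j, d i j • v j

section
variable {R N a b c : Type} [Ring R] [AddCommGroup N] [Module R N] [Fintype b]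

theorem act_add (d : Matrix a b R) (v w : b → N) : act d (v + w) = act d v + act d w := by
  funext i
  simp [act, Finset.sum_add_distrib]

theorem act_sub (d : Matrix a b R) (v w : b → N) : act d (v - w) = act d v - act d w := by
  funext i
  simp [act, smul_sub]

theorem act_zero (d : Matrix a b R) : act d (0 : b → N) = 0 := by
  funext i
  simp [act]

theorem zero_act (v : b → N) : act (0 : Matrix a b R) v = 0 := by
  funext i
  simp [act]

theorem add_act (d d' : Matrix a b R) (v : b → N) : act (d + d') v = act d v + act d' v := by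
  funext i
  simp [act, add_smul, Finset.sum_add_distrib]

theorem act_act [Fintype c] (d : Matrix a b R) (d' : Matrix b c R) (v : c → N) :
    act d (act d' v) = act (d * d') v := by
  funext i
  simp only [act, Matrix.mul_apply, Finset.smul_sum, Finset.sum_smul, mul_smul]
  exact Finset.sum_comm

theorem map_act {N' : Type} [AddCommGroup N'] [Module R N'] (φ : N →ₗ[R] N') (d : Matrix a b R)
    (v : b → N) : (fun i => φ (act d v i)) = act d fun j => φ (v j) := by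
  funext i
  simp [act, map_sum]

end

/-- the complex `N ^ n 0 → N ^ n 1 → ⋯` is exact at the places `1, …, c` -/
def Ex {R : Type} [Ring R] (n : ℕ → ℕ) (d : ∀ j, Matrix (Fin (n (j + 1))) (Fin (n j)) R)
    (N : Type) [AddCommGroup N] [Module R N] (c : ℕ) : Prop :=
  ∀ j < c, ∀ v : Fin (n (j + 1)) → N, act (d (j + 1)) v = 0 → ∃ w, act (d j) w = v

/-- the span of the images of the first `k` operators -/
def Kx {R M : Type} [Ring R] [AddCommGroup M] [Module R M] {g : ℕ} (x : Fin g → Module.End R M)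
    (k : ℕ) : Submodule R M :=
  ⨆ j : Fin g, ⨆ _ : j.val < k, LinearMap.range (x j)

/-- any `e + 1` polynomials are algebraically dependent modulo `I` -/
def DEP {F ι : Type} [Field F] (I : Ideal (MvPolynomial ι F)) (e : ℕ) : Prop :=
  ∀ y : Fin (e + 1) → MvPolynomial ι F, ∃ P : MvPolynomial (Fin (e + 1)) F,
    P ≠ 0 ∧ aeval y P ∈ I

/-- the image modulo `I` of the polynomials all of whose monomials have weight `< s` -/
noncomputable def Vs {F ι : Type} [Field F] (μ : ι → ℤ) (I : Ideal (MvPolynomial ι F)) (s : ℤ) :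
    Submodule F (MvPolynomial ι F ⧸ I) :=
  (restrictSupport F {α : ι →₀ ℕ | Finsupp.weight μ α < s}).map
    (Ideal.Quotient.mkₐ F I).toLinearMap

section
variable {F ι Λ : Type} [Field F] [Ring Λ] [Algebra F Λ]

/-- the rows of `δ` generate the symbol vectors of `J`, in each degree -/
def G1 (μ : ι → ℤ) (ev : MvPolynomial ι F →ₗ[F] Λ) (Fl : ℤ → Submodule F Λ) {n n' : ℕ}
    (σ : Fin n → ℤ) (σ' : Fin n' → ℤ) (J : Submodule Λ (Fin n → Λ))
    (δ : Matrix (Fin n') (Fin n) (MvPolynomial ι F)) : Prop :=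
  ∀ (s : ℤ) (u : Fin n → Λ) (U : Fin n → MvPolynomial ι F), u ∈ J →
    (∀ b, Sy μ ev Fl (s - σ b) (u b) (U b)) →
    ∃ q : Fin n' → MvPolynomial ι F, (∀ a, (q a).IsWeightedHomogeneous μ (s - σ' a)) ∧
      Matrix.vecMul q δ = U

/-- the rows of `d` generate `J`, with control of the filtration -/
def G2 (Fl : ℤ → Submodule F Λ) {n n' : ℕ} (σ : Fin n → ℤ) (σ' : Fin n' → ℤ)
    (J : Submodule Λ (Fin n → Λ)) (d : Matrix (Fin n') (Fin n) Λ) : Prop :=
  ∀ (s : ℤ) (u : Fin n → Λ), u ∈ J → (∀ b, u b ∈ Fl (s - σ b)) →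
    ∃ w : Fin n' → Λ, (∀ a, w a ∈ Fl (s - σ' a)) ∧ Matrix.vecMul w d = u

end

end Pool.Agent.P.MP_7cb106_nt.PF
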