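import Mathlib

namespace Pool.Agent.P.MP_7cb106_nt.PF.RV

section Nagata
open Polynomial MvPolynomial Ideal Nat RingHom List

variable {k : Type*} [Field k] {n : ℕ} (f : MvPolynomial (Fin (n + 1)) k)
variable (v w : Fin (n + 1) →₀ ℕ)

variable {f v} in
lemma lt_up (vlt : ∀ i, v i < (2 + f.totalDegree)) : ∀ l ∈ ofFn v, l < (2 + f.totalDegree) := by
  grind


noncomputable abbrev T1 (c : k) :
    MvPolynomial (Fin (n + 1)) k →ₐ[k] MvPolynomial (Fin (n + 1)) k :=
  aeval fun i ↦ if i = 0 then X 0 else X i + c • X 0 ^ ((2 + f.totalDegree) ^ i.1)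

lemma t1_comp_t1_neg (c : k) : (T1 f c).comp (T1 f (-c)) = AlgHom.id _ _ := by
  rw [comp_aeval, ← MvPolynomial.aeval_X_left]
  ext i v
  cases i using Fin.cases <;> simp

noncomputable abbrev T := AlgEquiv.ofAlgHom (T1 f 1) (T1 f (-1))
  (t1_comp_t1_neg f 1) (by simpa using t1_comp_t1_neg f (-1))

lemma sum_r_mul_ne (vlt : ∀ i, v i < (2 + f.totalDegree)) (wlt : ∀ i, w i < (2 + f.totalDegree)) (ne : v ≠ w) :
    ∑ x : Fin (n + 1), (2 + f.totalDegree) ^ x.1 * v x ≠ ∑ x : Fin (n + 1), (2 + f.totalDegree) ^ x.1 * w x := by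
  intro h
  refine ne <| Finsupp.ext <| congrFun <| ofFn_inj.mp ?_
  apply ofDigits_inj_of_len_eq (Nat.lt_add_right f.totalDegree one_lt_two)
    (by simp) (lt_up vlt) (lt_up wlt)
  simpa only [ofDigits_eq_sum_mapIdx, mapIdx_eq_ofFn, get_ofFn, length_ofFn,
    Fin.val_cast, mul_comm, sum_ofFn] using! h

lemma degreeOf_zero_t {a : k} (ha : a ≠ 0) : ((T f) (monomial v a)).degreeOf 0 =
    ∑ i : Fin (n + 1), ((2 + f.totalDegree) ^ i.1) * v i := by
  rw [← natDegree_finSuccEquiv, monomial_eq, Finsupp.prod_pow v fun a ↦ X a]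
  simp only [Fin.prod_univ_succ, Fin.sum_univ_succ, map_mul, map_prod, map_pow,
    AlgEquiv.ofAlgHom_apply, MvPolynomial.aeval_C, MvPolynomial.aeval_X, if_pos, Fin.succ_ne_zero,
    ite_false, one_smul, map_add, finSuccEquiv_X_zero, finSuccEquiv_X_succ, algebraMap_eq]
  have h (i : Fin n) :
      (Polynomial.C (X (R := k) i) + Polynomial.X ^ ((2 + f.totalDegree) ^ (i.succ).1)) ^ v i.succ ≠ 0 :=
    pow_ne_zero (v i.succ) (leadingCoeff_ne_zero.mp <| by simp [add_comm, leadingCoeff_X_pow_add_C])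
  rw [natDegree_mul (by simp [ha]) (mul_ne_zero (by simp) (Finset.prod_ne_zero_iff.mpr
    (fun i _ ↦ h i))), natDegree_mul (by simp) (Finset.prod_ne_zero_iff.mpr (fun i _ ↦ h i)),
    natDegree_prod _ _ (fun i _ ↦ h i), natDegree_finSuccEquiv, degreeOf_C]
  simpa only [natDegree_pow, zero_add, natDegree_X, mul_one, Fin.val_zero, pow_zero, one_mul,
    add_right_inj] using Finset.sum_congr rfl (fun i _ ↦ by
    rw [add_comm (Polynomial.C _), natDegree_X_pow_add_C, mul_comm])

lemma degreeOf_t_ne_of_ne (hv : v ∈ f.support) (hw : w ∈ f.support) (ne : v ≠ w) :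
    (T f <| monomial v <| coeff v f).degreeOf 0 ≠
    (T f <| monomial w <| coeff w f).degreeOf 0 := by
  rw [degreeOf_zero_t _ _ <| mem_support_iff.mp hv, degreeOf_zero_t _ _ <| mem_support_iff.mp hw]
  refine sum_r_mul_ne f v w (fun i ↦ ?_) (fun i ↦ ?_) ne <;>
  exact lt_of_le_of_lt ((monomial_le_degreeOf i ‹_›).trans (degreeOf_le_totalDegree f i))
    (by lia)

lemma leadingCoeff_finSuccEquiv_t :
    (finSuccEquiv k n ((T f) ((monomial v) (coeff v f)))).leadingCoeff =
    algebraMap k _ (coeff v f) := by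
  rw [monomial_eq, Finsupp.prod_fintype]
  · simp only [map_mul, map_prod, leadingCoeff_mul, leadingCoeff_prod]
    rw [AlgEquiv.ofAlgHom_apply, algHom_C, algebraMap_eq, finSuccEquiv_apply,
      eval₂Hom_C, coe_comp]
    simp only [AlgEquiv.ofAlgHom_apply, Function.comp_apply, leadingCoeff_C, map_pow,
      leadingCoeff_pow, algebraMap_eq]
    have : ∀ j, ((finSuccEquiv k n) ((T1 f) 1 (X j))).leadingCoeff = 1 := fun j ↦ by
      by_cases h : j = 0
      · simp [h, finSuccEquiv_apply]
      · simp only [aeval_eq_bind₁, bind₁_X_right, if_neg h, one_smul, map_add, map_pow]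
        obtain ⟨i, rfl⟩ := Fin.exists_succ_eq.mpr h
        simp [finSuccEquiv_X_succ, finSuccEquiv_X_zero, add_comm]
    simp only [this, one_pow, Finset.prod_const_one, mul_one]
  exact fun i ↦ pow_zero _

lemma T_leadingcoeff_isUnit (fne : f ≠ 0) :
    IsUnit (finSuccEquiv k n (T f f)).leadingCoeff := by
  obtain ⟨v, vin, vs⟩ := Finset.exists_max_image f.support
    (fun v ↦ (T f ((monomial v) (coeff v f))).degreeOf 0) (support_nonempty.mpr fne)
  set h := fun w ↦ (MvPolynomial.monomial w) (coeff w f)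
  simp only [← natDegree_finSuccEquiv] at vs
  replace vs : ∀ x ∈ f.support \ {v}, (finSuccEquiv k n ((T f) (h x))).degree <
      (finSuccEquiv k n ((T f) (h v))).degree := by
    intro x hx
    obtain ⟨h1, h2⟩ := Finset.mem_sdiff.mp hx
    apply degree_lt_degree <| lt_of_le_of_ne (vs x h1) ?_
    simpa only [natDegree_finSuccEquiv]
      using degreeOf_t_ne_of_ne f _ _ h1 vin <| ne_of_not_mem_cons h2
  have coeff : (finSuccEquiv k n ((T f) (h v + ∑ x ∈ f.support \ {v}, h x))).leadingCoeff =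
      (finSuccEquiv k n ((T f) (h v))).leadingCoeff := by
    simp only [map_add, map_sum]
    rw [add_comm]
    apply leadingCoeff_add_of_degree_lt <| (lt_of_le_of_lt <| degree_sum_le _ _) ?_
    have h2 : h v ≠ 0 := by simpa [h] using mem_support_iff.mp vin
    replace h2 : (finSuccEquiv k n ((T f) (h v))) ≠ 0 := fun eq ↦ h2 <|
      by simpa only [map_eq_zero_iff _ (AlgEquiv.injective _)] using eq
    exact (Finset.sup_lt_iff <| Ne.bot_lt (fun x ↦ h2 <| degree_eq_bot.mp x)).mpr vs
  nth_rw 2 [← f.support_sum_monomial_coeff]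
  rw [Finset.sum_eq_add_sum_sdiff_singleton_of_mem vin h]
  rw [leadingCoeff_finSuccEquiv_t] at coeff
  simpa only [coeff, algebraMap_eq] using (mem_support_iff.mp vin).isUnit.map MvPolynomial.C

theorem nagata (fne : f ≠ 0) :
    ∃ E : MvPolynomial (Fin (n + 1)) k ≃ₐ[k] Polynomial (MvPolynomial (Fin n) k),
      IsUnit (E f).leadingCoeff :=
  ⟨(T f).trans (finSuccEquiv k n), T_leadingcoeff_isUnit f fne⟩

end Nagata

section Reg
open RingTheory.Sequence
open scoped Pointwise

/-- any `δ + 1` elements are algebraically dependent modulo `I`. -/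
def Dep (k : Type*) [Field k] {S : Type*} [CommRing S] [Algebra k S] (δ : ℕ) (I : Ideal S) : Prop :=
  ∀ g : Fin (δ + 1) → S, ∃ P : MvPolynomial (Fin (δ + 1)) k, P ≠ 0 ∧ MvPolynomial.aeval g P ∈ I

lemma monic_cons {R : Type*} [CommRing R] [IsDomain R] (g : Polynomial R)
    (hg : IsUnit g.leadingCoeff) (rs : List R) (h : IsWeaklyRegular R rs) :
    IsWeaklyRegular (Polynomial R) (g :: rs.map (algebraMap R (Polynomial R))) := by
  have hg0 : g ≠ 0 := fun h0 => by simp [h0] at hg
  rw [isWeaklyRegular_cons_iff]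
  refine ⟨fun a b hab => mul_left_cancel₀ hg0 hab, ?_⟩
  rw [isWeaklyRegular_map_algebraMap_iff]
  set g' : Polynomial R := hg.unit⁻¹ • g with hg'
  have hm : g'.Monic := Polynomial.monic_of_isUnit_leadingCoeff_inv_smul hg
  have : Module.Free R (AdjoinRoot g') := .of_basis (AdjoinRoot.powerBasis' hm).basis
  have h1 : IsWeaklyRegular (AdjoinRoot g') rs :=
    (isWeaklyRegular_map_algebraMap_iff (AdjoinRoot g') (AdjoinRoot g') rs).1 h.of_flat
  have he : (g • (⊤ : Submodule (Polynomial R) (Polynomial R))) = Ideal.span {g'} := by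
    rw [← Submodule.ideal_span_singleton_smul, Ideal.smul_eq_mul, Ideal.mul_top]
    apply le_antisymm
    · rw [Ideal.span_singleton_le_iff_mem, Ideal.mem_span_singleton']
      refine ⟨Polynomial.C (hg.unit : R), ?_⟩
      rw [hg', ← Polynomial.smul_eq_C_mul, ← Units.smul_def, smul_smul]; simp
    · rw [Ideal.span_singleton_le_iff_mem, Ideal.mem_span_singleton']
      refine ⟨Polynomial.C ((hg.unit⁻¹ : Rˣ) : R), ?_⟩
      rw [hg', ← Polynomial.smul_eq_C_mul, ← Units.smul_def]
  let e : QuotSMulTop g (Polynomial R) ≃+ AdjoinRoot g' :=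
    (Submodule.quotEquivOfEq _ _ he).toAddEquiv
  refine (AddEquiv.isWeaklyRegular_congr (e := e) ?_).2 h1
  rw [List.forall₂_same]
  intro a _ x
  induction x using Submodule.Quotient.induction_on with
  | H x => rfl

theorem reg {k : Type*} [Field k] (δ : ℕ) : ∀ (N : ℕ) (I : Ideal (MvPolynomial (Fin N) k)),
    Dep k δ I → ∀ n : ℕ, n + δ ≤ N → ∃ rs : List (MvPolynomial (Fin N) k),
      rs.length = n ∧ (∀ r ∈ rs, r ∈ I) ∧ IsWeaklyRegular (MvPolynomial (Fin N) k) rs := by
  intro N
  induction N with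
  | zero =>
    intro I _ n hn
    exact ⟨[], by simp; omega, by simp, by simp⟩
  | succ N ih =>
    intro I hI n hn
    rcases n with _ | n
    · exact ⟨[], rfl, by simp, by simp⟩
    have hδ : δ + 1 ≤ N + 1 := by omega
    obtain ⟨P, hP0, hP⟩ := hI (fun i => MvPolynomial.X (Fin.castLE hδ i))
    set f := MvPolynomial.aeval (fun i => (MvPolynomial.X (Fin.castLE hδ i) :
      MvPolynomial (Fin (N + 1)) k)) P with hf
    have hf0 : f ≠ 0 := by
      have : f = MvPolynomial.rename (Fin.castLE hδ) P := by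
        rw [hf, MvPolynomial.rename_eq_aeval]; rfl
      rw [this]
      intro h0
      exact hP0 (MvPolynomial.rename_injective _ (Fin.castLE_injective hδ) (by simpa using h0))
    obtain ⟨E, hE⟩ := nagata f hf0
    let ψ : MvPolynomial (Fin N) k →ₐ[k] MvPolynomial (Fin (N + 1)) k :=
      E.symm.toAlgHom.comp (IsScalarTower.toAlgHom k _ _)
    have hI' : Dep k δ (I.comap ψ) := by
      intro g
      obtain ⟨Q, hQ0, hQ⟩ := hI (fun i => ψ (g i))
      refine ⟨Q, hQ0, ?_⟩
      rw [Ideal.mem_comap, MvPolynomial.comp_aeval_apply]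
      exact hQ
    obtain ⟨rs, hl, hm, hr⟩ := ih _ hI' n (by omega)
    refine ⟨f :: rs.map ψ, by simp [hl], ?_, ?_⟩
    · intro r hr
      rcases List.mem_cons.1 hr with rfl | hr
      · exact hP
      · obtain ⟨a, ha, rfl⟩ := List.mem_map.1 hr
        exact hm a ha
    · have h2 := monic_cons (E f) hE rs hr
      refine (AddEquiv.isWeaklyRegular_congr (e := E.toAddEquiv) ?_).2 h2
      refine List.Forall₂.cons (fun x => by simp) ?_
      rw [List.forall₂_map_left_iff, List.forall₂_map_right_iff, List.forall₂_same]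
      intro a _ x
      simp [ψ]

end Reg


section Van
open RingTheory.Sequence Matrix
open scoped Pointwise

variable {S : Type*} [CommRing S]

/-- a matrix acting on columns with entries in a module. -/
def mact {W : Type*} [AddCommGroup W] [Module S W] {m n : Type*} [Fintype n] (d : Matrix m n S) :
    (n → W) →ₗ[S] (m → W) where
  toFun w := fun i => ∑ j, d i j • w j
  map_add' a b := by ext i; simp [Finset.sum_add_distrib]
  map_smul' c a := by
    ext i; simp only [Pi.smul_apply, RingHom.id_apply, Finset.smul_sum]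
    exact Finset.sum_congr rfl fun j _ => smul_comm _ _ _

variable {W : Type*} [AddCommGroup W] [Module S W]

lemma mact_apply {m n : Type*} [Fintype n] (d : Matrix m n S) (w : n → W) (i : m) :
    mact d w i = ∑ j, d i j • w j := rfl

lemma mact_mul {l m n : Type*} [Fintype n] [Fintype m] (a : Matrix l m S) (b : Matrix m n S)
    (w : n → W) : mact (a * b) w = mact a (mact b w) := by
  ext i
  simp only [mact_apply, Matrix.mul_apply, Finset.sum_smul, Finset.smul_sum, mul_smul]
  exact Finset.sum_comm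

lemma mact_add {m n : Type*} [Fintype n] (a b : Matrix m n S) (w : n → W) :
    mact (a + b) w = mact a w + mact b w := by
  ext i; simp [mact_apply, add_smul, Finset.sum_add_distrib]

lemma mact_zero {m n : Type*} [Fintype n] (w : n → W) : mact (0 : Matrix m n S) w = 0 := by
  ext i; simp [mact_apply]

lemma mact_scalar {n : Type*} [Fintype n] [DecidableEq n] (f : S) (w : n → W) :
    mact (f • (1 : Matrix n n S)) w = f • w := by
  ext i; simp [mact_apply, Matrix.one_apply, ite_smul]

lemma mact_map {W' : Type*} [AddCommGroup W'] [Module S W'] (φ : W →ₗ[S] W') {m n : Type*}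
    [Fintype n] (d : Matrix m n S) (w : n → W) :
    mact d (fun j => φ (w j)) = fun i => φ (mact d w i) := by
  ext i; simp [mact_apply]

variable {n : ℕ → Type*} [∀ j, Fintype (n j)] [∀ j, DecidableEq (n j)]

lemma htpy (d : ∀ j, Matrix (n (j + 1)) (n j) S) (hdd : ∀ j, d (j + 1) * d j = 0)
    (hex : ∀ j (v : n (j + 1) → S), v ᵥ* d j = 0 → ∃ u, v = u ᵥ* d (j + 1)) (f : S)
    (h0 : Matrix (n 0) (n 1) S) (hh0 : f • (1 : Matrix (n 0) (n 0) S) = h0 * d 0) (j : ℕ) :
    ∃ (h : Matrix (n j) (n (j + 1)) S) (h' : Matrix (n (j + 1)) (n (j + 2)) S),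
      f • (1 : Matrix (n (j + 1)) (n (j + 1)) S) = h' * d (j + 1) + d j * h := by
  have step : ∀ j (h : Matrix (n j) (n (j + 1)) S),
      (f • (1 : Matrix (n (j + 1)) (n (j + 1)) S) - d j * h) * d j = 0 →
      ∃ h' : Matrix (n (j + 1)) (n (j + 2)) S,
        f • (1 : Matrix (n (j + 1)) (n (j + 1)) S) = h' * d (j + 1) + d j * h := by
    intro j h hh
    have : ∀ i, ∃ u, (f • (1 : Matrix (n (j + 1)) (n (j + 1)) S) - d j * h) i = u ᵥ* d (j + 1) :=
      fun i => hex j _ (by
        have := congrFun hh i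
        rwa [Matrix.mul_apply_eq_vecMul] at this)
    choose u hu using this
    refine ⟨Matrix.of u, ?_⟩
    rw [← sub_eq_iff_eq_add]
    ext i k
    rw [hu i]; rfl
  have key : ∀ j, ∃ h : Matrix (n j) (n (j + 1)) S,
      (f • (1 : Matrix (n (j + 1)) (n (j + 1)) S) - d j * h) * d j = 0 := by
    intro j
    induction j with
    | zero =>
      refine ⟨h0, ?_⟩
      rw [Matrix.sub_mul, Matrix.mul_assoc, ← hh0]; simp
    | succ j ih =>
      obtain ⟨h, hh⟩ := ih
      obtain ⟨h', hh'⟩ := step j h hh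
      refine ⟨h', ?_⟩
      rw [Matrix.sub_mul, Matrix.mul_assoc, ← sub_eq_iff_eq_add.2 hh', Matrix.mul_sub,
        ← Matrix.mul_assoc, hdd]
      simp
  obtain ⟨h, hh⟩ := key j
  obtain ⟨h', hh'⟩ := step j h hh
  exact ⟨h, h', hh'⟩

/-- coboundaries in degree `j`. -/
def cob (W : Type*) [AddCommGroup W] [Module S W] (d : ∀ j, Matrix (n (j + 1)) (n j) S) :
    ∀ j, Submodule S (n j → W)
  | 0 => ⊥
  | j + 1 => LinearMap.range (mact (d j))

universe u in
lemma van_aux (d : ∀ j, Matrix (n (j + 1)) (n j) S) (hdd : ∀ j, d (j + 1) * d j = 0)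
    (hex : ∀ j (v : n (j + 1) → S), v ᵥ* d j = 0 → ∃ u, v = u ᵥ* d (j + 1)) (rs : List S)
    (hrs : ∀ f ∈ rs, ∃ h0 : Matrix (n 0) (n 1) S, f • (1 : Matrix (n 0) (n 0) S) = h0 * d 0) :
    ∀ (W : Type u) [AddCommGroup W] [Module S W], IsWeaklyRegular W rs →
      ∀ j < rs.length, ∀ w : n j → W, mact (d j) w = 0 → w ∈ cob W d j := by
  induction rs with
  | nil => intro W _ _ _ j hj; simp at hj
  | cons f rs ih =>
    intro W _ _ hW j hj w hw
    rw [isWeaklyRegular_cons_iff] at hW
    obtain ⟨h0, hh0⟩ := hrs f (by simp)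
    have hreg : ∀ {m : Type _} (a : m → W), f • a = 0 → a = 0 := fun a ha => by
      ext i
      exact hW.1 (by simpa using congrFun ha i)
    rcases j with _ | j
    · have : f • w = 0 := by rw [← mact_scalar, hh0, mact_mul, hw, map_zero]
      simpa [cob] using hreg w this
    · obtain ⟨h, h', hh⟩ := htpy d hdd hex f h0 hh0 j
      have h1 : f • w = mact (d j) (mact h w) := by
        rw [← mact_scalar, hh, mact_add, mact_mul, mact_mul, hw, map_zero, zero_add]
      set u := mact h w with hu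
      let π : W →ₗ[S] QuotSMulTop f W := Submodule.mkQ _
      have hπ : ∀ a : W, π a = 0 ↔ ∃ b, f • b = a := fun a => by
        simp only [π, Submodule.mkQ_apply, Submodule.Quotient.mk_eq_zero,
          Submodule.mem_smul_pointwise_iff_exists]
        simp
      have h2 := ih (fun g hg => hrs g (by simp [hg])) (QuotSMulTop f W) hW.2 j
        (by simpa using hj) (fun i => π (u i)) (by
          rw [mact_map, ← h1]
          ext i
          exact (hπ _).2 ⟨w i, rfl⟩)
      have h3 : ∃ (t u' : n j → W), mact (d j) t = 0 ∧ u = t + f • u' := by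
        rcases j with _ | j
        · have h2' : (fun i => π (u i)) = 0 := by simpa [cob] using h2
          choose b hb using fun i => (hπ (u i)).1 (congrFun h2' i)
          exact ⟨0, b, map_zero _, by ext i; simp [hb]⟩
        · obtain ⟨t, ht⟩ := h2
          choose t' ht' using fun i => Submodule.mkQ_surjective _ (t i)
          have ht2 : t = fun i => π (t' i) := by ext i; exact (ht' i).symm
          rw [ht2, mact_map] at ht
          choose b hb using fun i => (hπ (u i - mact (d j) t' i)).1 (by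
            rw [map_sub, sub_eq_zero]; exact (congrFun ht i).symm)
          refine ⟨mact (d j) t', b, by rw [← mact_mul, hdd, mact_zero], ?_⟩
          ext i; simp [hb]
      obtain ⟨t, u', ht, hu'⟩ := h3
      refine ⟨u', ?_⟩
      rw [hu', map_add, ht, zero_add, map_smul] at h1
      exact (sub_eq_zero.1 (hreg (w - mact (d j) u') (by rw [smul_sub, h1, sub_self]))).symm

/-- VAN. The rows of `d (j+1)` generate the left kernel of `d j`; a regular list kills the
cokernel of `d 0`; then the dual complex (columns) is exact below the length of the list. -/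
theorem van (d : ∀ j, Matrix (n (j + 1)) (n j) S) (hdd : ∀ j, d (j + 1) * d j = 0)
    (hex : ∀ j (v : n (j + 1) → S), v ᵥ* d j = 0 → ∃ u, v = u ᵥ* d (j + 1)) (rs : List S)
    (hrs : ∀ f ∈ rs, ∀ v : n 0 → S, ∃ u, f • v = u ᵥ* d 0) (hreg : IsWeaklyRegular S rs) :
    (0 < rs.length → ∀ w : n 0 → S, d 0 *ᵥ w = 0 → w = 0) ∧
    ∀ j, j + 1 < rs.length → ∀ w : n (j + 1) → S, d (j + 1) *ᵥ w = 0 → ∃ u, w = d j *ᵥ u := by
  have hrs' : ∀ f ∈ rs, ∃ h0 : Matrix (n 0) (n 1) S,
      f • (1 : Matrix (n 0) (n 0) S) = h0 * d 0 := by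
    intro f hf
    choose u hu using fun i => hrs f hf ((1 : Matrix (n 0) (n 0) S) i)
    refine ⟨Matrix.of u, ?_⟩
    ext i k
    exact congrFun (hu i) k
  have key := van_aux d hdd hex rs hrs' S hreg
  refine ⟨fun h w hw => ?_, fun j h w hw => ?_⟩
  · simpa [cob] using key 0 h w hw
  · obtain ⟨u, hu⟩ := key (j + 1) h w hw
    exact ⟨u, hu.symm⟩

end Van

section Grow

theorem dep_of_growth {k : Type*} [Field k] {S : Type*} [CommRing S] [Algebra k S] (I : Ideal S)
    (V : ℕ → Submodule k S) (hmono : Monotone V) (h1 : (1 : S) ∈ V 0)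
    (hmul : ∀ s t a b, a ∈ V s → b ∈ V t → a * b ∈ V (s + t)) (hall : ∀ a, ∃ s, a ∈ V s)
    (C δ : ℕ) (hfin : ∀ s, Module.Finite k ((V s).map (Ideal.Quotient.mkₐ k I).toLinearMap))
    (hgr : ∀ s, Module.finrank k ((V s).map (Ideal.Quotient.mkₐ k I).toLinearMap) ≤ C * (s + 1) ^ δ)
    (g : Fin (δ + 1) → S) :
    ∃ P : MvPolynomial (Fin (δ + 1)) k, P ≠ 0 ∧ MvPolynomial.aeval g P ∈ I := by
  classical
  choose D hD using fun i => hall (g i)
  set E := ∑ i, D i with hE
  set s := C * (E + 1) ^ δ with hs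
  have hpow : ∀ i m, g i ^ m ∈ V (m * D i) := by
    intro i m
    induction m with
    | zero => simpa using h1
    | succ m ih => rw [pow_succ, Nat.succ_mul]; exact hmul _ _ _ _ ih (hD i)
  have hprod : ∀ (b : Fin (δ + 1) → ℕ) (T : Finset (Fin (δ + 1))),
      ∏ i ∈ T, g i ^ b i ∈ V (∑ i ∈ T, b i * D i) := by
    intro b T
    induction T using Finset.induction_on with
    | empty => simpa using h1
    | insert a T ha ih => rw [Finset.prod_insert ha, Finset.sum_insert ha]; exact hmul _ _ _ _ (hpow _ _) ih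
  have hmem : ∀ b : Fin (δ + 1) → Fin (s + 1), ∏ i, g i ^ (b i : ℕ) ∈ V (s * E) := by
    intro b
    refine hmono ?_ (hprod (fun i => b i) Finset.univ)
    rw [hE, Finset.mul_sum]
    exact Finset.sum_le_sum fun i _ => Nat.mul_le_mul_right _ (Nat.lt_succ_iff.1 (b i).2)
  let x : (Fin (δ + 1) → Fin (s + 1)) → (V (s * E)).map (Ideal.Quotient.mkₐ k I).toLinearMap :=
    fun b => ⟨Ideal.Quotient.mkₐ k I (∏ i, g i ^ (b i : ℕ)), ⟨_, hmem b, rfl⟩⟩
  have hx : ¬ LinearIndependent k x := by
    intro hli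
    have := hfin (s * E)
    have h2 := hli.fintype_card_le_finrank.trans (hgr (s * E))
    simp only [Fintype.card_fun, Fintype.card_fin] at h2
    have h3 : s * E + 1 ≤ (E + 1) * (s + 1) := by nlinarith
    have h4 : C * (s * E + 1) ^ δ ≤ s * (s + 1) ^ δ := by
      calc C * (s * E + 1) ^ δ ≤ C * ((E + 1) * (s + 1)) ^ δ := by gcongr
        _ = s * (s + 1) ^ δ := by rw [mul_pow, ← mul_assoc]
    have h5 := h2.trans h4
    rw [pow_succ'] at h5
    have : 0 < (s + 1) ^ δ := by positivity
    nlinarith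
  rw [Fintype.not_linearIndependent_iff] at hx
  obtain ⟨c, hc, b0, hb0⟩ := hx
  let e : (Fin (δ + 1) → Fin (s + 1)) → (Fin (δ + 1) →₀ ℕ) :=
    fun b => Finsupp.equivFunOnFinite.symm fun i => (b i : ℕ)
  have he : Function.Injective e := fun a b hab => by
    ext i
    exact congrFun (Finsupp.equivFunOnFinite.symm.injective hab) i
  refine ⟨∑ b, MvPolynomial.monomial (e b) (c b), ?_, ?_⟩
  · intro h0
    have := congrArg (MvPolynomial.coeff (e b0)) h0
    simp only [MvPolynomial.coeff_sum, MvPolynomial.coeff_monomial, he.eq_iff,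
      MvPolynomial.coeff_zero] at this
    simp at this
    exact hb0 this
  · rw [← Ideal.Quotient.eq_zero_iff_mem, ← Ideal.Quotient.mkₐ_eq_mk k]
    have := congrArg Subtype.val hc
    simp only [AddSubmonoidClass.coe_finsetSum, SetLike.val_smul, ZeroMemClass.coe_zero, x] at this
    rw [← this, map_sum, map_sum]
    refine Finset.sum_congr rfl fun b _ => ?_
    rw [MvPolynomial.aeval_monomial, ← Algebra.smul_def, map_smul, Finsupp.prod_fintype _ _ (by simp)]
    rfl

end Grow

section Both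
open RingTheory.Sequence Matrix

theorem reg' {k : Type*} [Field k] {ι : Type*} [Fintype ι] (δ : ℕ) (I : Ideal (MvPolynomial ι k))
    (hI : Dep k δ I) (m : ℕ) (hm : m + δ ≤ Fintype.card ι) : ∃ rs : List (MvPolynomial ι k),
      rs.length = m ∧ (∀ r ∈ rs, r ∈ I) ∧ IsWeaklyRegular (MvPolynomial ι k) rs := by
  let E := MvPolynomial.renameEquiv k (Fintype.equivFin ι).symm
  have hI' : Dep k δ (I.comap E.toAlgHom) := by
    intro g
    obtain ⟨Q, hQ0, hQ⟩ := hI (fun i => E.toAlgHom (g i))
    refine ⟨Q, hQ0, ?_⟩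
    rw [Ideal.mem_comap, MvPolynomial.comp_aeval_apply]
    exact hQ
  obtain ⟨rs, hl, hmem, hr⟩ := reg δ _ _ hI' m hm
  refine ⟨rs.map E, by simp [hl], ?_, ?_⟩
  · intro r hr
    obtain ⟨a, ha, rfl⟩ := List.mem_map.1 hr
    exact hmem a ha
  · refine (AddEquiv.isWeaklyRegular_congr (e := E.toAddEquiv) ?_).1 hr
    rw [List.forall₂_map_right_iff, List.forall₂_same]
    intro a _ x
    simp

end Both

end Pool.Agent.P.MP_7cb106_nt.PF.RV
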