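import Pool.Agent.P.MP_7cb106_nt.PF.IfaceF
import Pool.Agent.P.MP_7cb106_nt.PF.BaseRV

/-! The abstract regular sequence theorem: all steps in one file. -/

set_option autoImplicit false

namespace Pool.Agent.P.MP_7cb106_nt.PF

open MvPolynomial

/-! Step TOZ. -/

theorem toz_weight {ι : Type} (μ : ι → ℕ) (d : ι →₀ ℕ) :
    Finsupp.weight (fun i => (μ i : ℤ)) d = (Finsupp.weight μ d : ℕ) := by
  simp [Finsupp.weight_apply, Finsupp.sum]

theorem toz_down {F ι : Type} [Field F] {μ : ι → ℕ} {P : MvPolynomial ι F} {t : ℤ}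
    (h : P.IsWeightedHomogeneous (fun i => (μ i : ℤ)) t) :
    P = 0 ∨ ∃ n : ℕ, t = n ∧ P.IsWeightedHomogeneous μ n := by
  by_cases h0 : P = 0
  · exact Or.inl h0
  obtain ⟨d, hd⟩ := ne_zero_iff.1 h0
  have e := (h hd).symm.trans (toz_weight μ d)
  refine Or.inr ⟨_, e, fun d' hd' => ?_⟩
  have := (toz_weight μ d').symm.trans ((h hd').trans e)
  exact_mod_cast this

theorem toz_up {F ι : Type} [Field F] {μ : ι → ℕ} {P : MvPolynomial ι F} {n : ℕ}
    (h : P.IsWeightedHomogeneous μ n) : P.IsWeightedHomogeneous (fun i => (μ i : ℤ)) n :=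
  fun d hd => by rw [toz_weight, h hd]

theorem p_TOZ :
    S_TOZ := by
  intro F ι Λ _ _ _ μ ev Fl h
  refine ⟨fun i => by exact_mod_cast h.pos i, fun t ht => by rw [Int.toNat_of_nonpos ht, h.top],
    fun s t hst => h.anti (Int.toNat_le_toNat hst), fun {s t a b} ha hb =>
      h.anti (by omega) (h.mul ha hb), fun {t P} hP => ?_, fun {s t P Q} hP hQ => ?_,
    fun {t a} ha => ?_, fun {t P} hP h1 => ?_, fun s a ha => ?_, fun s a ha => ?_⟩
  · rcases toz_down hP with rfl | ⟨n, rfl, hn⟩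
    · simp
    · exact h.ev_mem hn
  · rcases toz_down hP with rfl | ⟨n, rfl, hn⟩
    · simp
    rcases toz_down hQ with rfl | ⟨m, rfl, hm⟩
    · simp
    exact h.ev_mul hn hm
  · rcases lt_or_ge t 0 with ht | ht
    · refine ⟨0, isWeightedHomogeneous_zero _ _ _, ?_⟩
      show _ ∈ Fl (t + 1).toNat
      rw [Int.toNat_of_nonpos (by omega), h.top]
      trivial
    · obtain ⟨n, rfl⟩ := Int.eq_ofNat_of_zero_le ht
      obtain ⟨P, h1, h2⟩ := h.span ha
      exact ⟨P, toz_up h1, h2⟩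
  · rcases toz_down hP with rfl | ⟨n, rfl, hn⟩
    · rfl
    · exact h.ind hn h1
  · have tel : ∀ k m : ℕ, a (k + m) - a k ∈ Fl (s + k).toNat := fun k m => by
      induction m with
      | zero => simp
      | succ m ih =>
        have := add_mem (h.anti (Int.toNat_le_toNat (by push_cast; omega)) (ha (k + m))) ih
        rwa [sub_add_sub_cancel] at this
    obtain ⟨b, hb⟩ := h.complete (fun t => a (t + (-s).toNat)) fun t => by
      rw [Nat.add_right_comm]
      exact h.anti (by omega) (ha (t + (-s).toNat))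
    refine ⟨b, fun k => ?_⟩
    have h1 := hb (k + s.toNat)
    have h2 := tel k (s.toNat + (-s).toNat)
    rw [← Nat.add_assoc] at h2
    have := add_mem (h.anti (show (s + k).toNat ≤ k + s.toNat by omega) h1) h2
    rwa [sub_add_sub_cancel] at this
  · exact h.sep a fun t => h.anti (by omega) (ha (t + (-s).toNat))

/-! Step FD. -/

theorem fd_fin {ι : Type} [Fintype ι] (μ : ι → ℤ) (h : ∀ i, 0 < μ i) (t : ℤ) :
    {α : ι →₀ ℕ | Finsupp.weight μ α = t}.Finite := by
  classical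
  refine (Set.finite_Iic (Finsupp.equivFunOnFinite.symm fun _ => t.toNat)).subset
    fun α hα i => ?_
  have h1 : (α i : ℤ) * μ i ≤ t := by
    rw [← (hα : Finsupp.weight μ α = t), Finsupp.weight_apply, Finsupp.sum_fintype _ _ (by simp)]
    have := Finset.single_le_sum (f := fun j => α j • μ j)
      (fun j _ => nsmul_nonneg (h j).le _) (Finset.mem_univ i)
    simpa using this
  have h2 : (α i : ℤ) ≤ (α i : ℤ) * μ i := le_mul_of_one_le_right (by positivity) (h i)
  change α i ≤ t.toNat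
  omega

theorem p_FD :
    S_FD := by
  intro F ι Λ _ _ _ _ μ ev Fl h
  have H : ∀ s : ℕ, ∃ W : Submodule F Λ, W.FG ∧ W ⊔ Fl s = ⊤ := by
    intro s
    induction s with
    | zero => exact ⟨⊥, Submodule.fg_bot, by rw [bot_sup_eq]; exact h.top _ le_rfl⟩
    | succ s ih =>
      obtain ⟨W, hW, e⟩ := ih
      have hfg : (weightedHomogeneousSubmodule F μ (s : ℤ)).FG := by
        rw [weightedHomogeneousSubmodule_eq_finsupp_supported, AddMonoidAlgebra.supported_eq_span_single]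
        exact Submodule.fg_span ((fd_fin μ h.pos s).image _)
      refine ⟨W ⊔ (weightedHomogeneousSubmodule F μ (s : ℤ)).map ev, hW.sup (hfg.map _), ?_⟩
      rw [eq_top_iff, ← e, sup_assoc]
      refine sup_le_sup_left (fun a ha => ?_) _
      obtain ⟨P, hP, hP'⟩ := h.span ha
      rw [← add_sub_cancel (ev P) a, add_sub_assoc']
      rw [add_sub_assoc]
      exact Submodule.add_mem_sup ⟨P, hP, rfl⟩ (by push_cast; exact hP')
  have H1 : ∀ s : ℤ, Module.Finite F (Λ ⧸ Fl s) := by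
    intro s
    obtain ⟨W, hW, e⟩ := H s.toNat
    have e' : W ⊔ Fl s = ⊤ := by
      rcases le_total s 0 with hs | hs
      · rw [h.top s hs, sup_top_eq]
      · rwa [Int.toNat_of_nonneg hs] at e
    refine ⟨?_⟩
    have := hW.map (Fl s).mkQ
    rwa [(Submodule.map_mkQ_eq_top _ _).2 (by rw [sup_comm]; exact e')] at this
  refine ⟨H1, fun r s => ?_⟩
  have := H1 s
  exact Module.Finite.equiv (Submodule.quotientPi fun _ : Fin r => Fl s).symm

/-! Step GENA. -/

theorem p_GENA :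
    S_GENA := by
  intro F ι Λ _ _ _ _ μ ev Fl _h n σ J
  classical
  set G : Set (Fin n → MvPolynomial ι F) :=
    {U | ∃ s : ℤ, ∃ u ∈ J, ∀ b, Sy μ ev Fl (s - σ b) (u b) (U b)} with hG
  have hfg : (Submodule.span (MvPolynomial ι F) G).FG := IsNoetherian.noetherian _
  obtain ⟨T, hT, hsp⟩ := (Submodule.fg_span_iff_fg_span_finset_subset G).1 hfg
  let e : Fin T.card ≃ T := T.equivFin.symm
  have hch : ∀ a : Fin T.card, ∃ s : ℤ, ∃ u ∈ J,
      ∀ b, Sy μ ev Fl (s - σ b) (u b) ((e a : Fin n → MvPolynomial ι F) b) :=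
    fun a => hT (e a).2
  choose σ' d hd hs using hch
  refine ⟨T.card, σ', Matrix.of d, Matrix.of fun a => (e a : Fin n → MvPolynomial ι F), hd, hs, ?_⟩
  intro s u U hu hU
  have hm : U ∈ Submodule.span (MvPolynomial ι F)
      (Set.range fun a => (e a : Fin n → MvPolynomial ι F)) := by
    have h1 : U ∈ Submodule.span (MvPolynomial ι F) G := Submodule.subset_span ⟨s, u, hu, hU⟩
    rw [hsp] at h1
    refine Submodule.span_mono ?_ h1
    intro x hx
    exact ⟨e.symm ⟨x, hx⟩, by simp⟩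
  obtain ⟨q, hq⟩ := (Submodule.mem_span_range_iff_exists_fun _).1 hm
  refine ⟨fun a => weightedHomogeneousComponent μ (s - σ' a) (q a),
    fun a => weightedHomogeneousComponent_isWeightedHomogeneous _ _, ?_⟩
  funext b
  have h1 : ∑ a, q a * (e a : Fin n → MvPolynomial ι F) b = U b := by
    have := congrFun hq b
    simpa [Finset.sum_apply] using this
  have h2 := congrArg (weightedHomogeneousComponent μ (s - σ b)) h1
  rw [map_sum, weightedHomogeneousComponent_of_mem (hU b).1, if_pos rfl] at h2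
  rw [← h2]
  simp only [Matrix.vecMul, dotProduct, Matrix.of_apply]
  exact Finset.sum_congr rfl fun a _ => (comp_mul μ (q a) (hs a b).1 (by ring)).symm

/-! Step GENB. -/

theorem genb_vec {R : Type} [Ring R] {n n' : ℕ} (w : Fin n' → R) (d : Matrix (Fin n') (Fin n) R)
    (b : Fin n) : Matrix.vecMul w d b = ∑ a, w a * d a b := rfl

theorem genb_step {F ι Λ : Type} [Field F] [Ring Λ] [Algebra F Λ] {μ : ι → ℤ}
    {ev : MvPolynomial ι F →ₗ[F] Λ} {Fl : ℤ → Submodule F Λ} (h : FZ μ ev Fl)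
    {n n' : ℕ} {σ : Fin n → ℤ} {σ' : Fin n' → ℤ} {J : Submodule Λ (Fin n → Λ)}
    {d : Matrix (Fin n') (Fin n) Λ} {δ : Matrix (Fin n') (Fin n) (MvPolynomial ι F)}
    (hd : ∀ a, d a ∈ J) (hs : ∀ a b, Sy μ ev Fl (σ' a - σ b) (d a b) (δ a b))
    (hG : G1 μ ev Fl σ σ' J δ) (s : ℤ) (u : Fin n → Λ) :
    ∃ w : Fin n' → Λ, u ∈ J → (∀ b, u b ∈ Fl (s - σ b)) →
      (∀ a, w a ∈ Fl (s - σ' a)) ∧ u - Matrix.vecMul w d ∈ J ∧
        ∀ b, (u - Matrix.vecMul w d) b ∈ Fl (s + 1 - σ b) := by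
  by_cases hu : u ∈ J ∧ ∀ b, u b ∈ Fl (s - σ b)
  swap
  · exact ⟨0, fun h1 h2 => (hu ⟨h1, h2⟩).elim⟩
  obtain ⟨hu, hb⟩ := hu
  choose U hU using fun b => h.exists_sy (hb b)
  obtain ⟨q, hq, hqU⟩ := hG s u U hu hU
  refine ⟨fun a => ev (q a), fun _ _ => ⟨fun a => h.ev_mem (hq a), ?_, fun b => ?_⟩⟩
  · refine sub_mem hu ?_
    have e : Matrix.vecMul (fun a => ev (q a)) d = ∑ a, ev (q a) • d a := by
      funext b
      rw [genb_vec, Finset.sum_apply]
      rfl
    rw [e]
    exact sum_mem fun a _ => J.smul_mem _ (hd a)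
  · have h1 : Sy μ ev Fl (s - σ b) (∑ a, ev (q a) * d a b) (∑ a, q a * δ a b) :=
      Sy.sum _ fun a _ => h.sy_mul (h.sy_ev (hq a)) (hs a b) (by ring)
    have h2 := (hU b).sub h1
    rw [← genb_vec q δ b, hqU, sub_self] at h2
    have h3 := h2.mem_succ
    rw [show s - σ b + 1 = s + 1 - σ b by ring] at h3
    exact h3

theorem p_GENB :
    S_GENB := by
  intro F ι Λ _ _ _ μ ev Fl h n n' σ σ' J d δ hd hs hG s u hu hb
  choose st hst using genb_step h hd hs hG
  let v : ℕ → Fin n → Λ := fun k =>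
    Nat.rec u (fun i x => x - Matrix.vecMul (st (s + i) x) d) k
  have v0 : v 0 = u := rfl
  have v1 : ∀ k, v (k + 1) = v k - Matrix.vecMul (st (s + k) (v k)) d := fun _ => rfl
  have hv : ∀ k : ℕ, v k ∈ J ∧ ∀ b, v k b ∈ Fl (s + k - σ b) := by
    intro k
    induction k with
    | zero => exact ⟨hu, fun b => by simpa [v0] using hb b⟩
    | succ k ih =>
      obtain ⟨-, h2, h3⟩ := hst (s + k) (v k) ih.1 ih.2
      refine ⟨v1 k ▸ h2, fun b => ?_⟩
      rw [v1, Nat.cast_succ, ← add_assoc]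
      exact h3 b
  let W : ℕ → Fin n' → Λ := fun k => ∑ i ∈ Finset.range k, st (s + i) (v i)
  have W0 : W 0 = 0 := Finset.sum_range_zero _
  have W1 : ∀ k, W (k + 1) = W k + st (s + k) (v k) := fun k => Finset.sum_range_succ _ _
  have hW : ∀ k, v k = u - Matrix.vecMul (W k) d := by
    intro k
    induction k with
    | zero => rw [v0, W0, Matrix.zero_vecMul, sub_zero]
    | succ k ih => rw [v1, W1, Matrix.add_vecMul, ← sub_sub, ← ih]
  have hc : ∀ a, ∃ x, ∀ k : ℕ, x - W k a ∈ Fl (s - σ' a + k) := by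
    intro a
    refine h.complete (s - σ' a) (fun k => W k a) fun k => ?_
    have := (hst (s + k) (v k) (hv k).1 (hv k).2).1 a
    rw [show s + k - σ' a = s - σ' a + k by ring] at this
    simpa [W1] using this
  choose w hw using hc
  refine ⟨w, fun a => by simpa [W0] using hw a 0, ?_⟩
  funext b
  refine (sub_eq_zero.1 (h.sep (s - σ b) _ fun k => ?_)).symm
  have e : u b - Matrix.vecMul w d b = v k b - ∑ a, (w a - W k a) * d a b := by
    rw [hW k, Pi.sub_apply, genb_vec, genb_vec]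
    simp only [sub_mul, Finset.sum_sub_distrib]
    abel
  rw [e]
  refine sub_mem ?_ (sum_mem fun a _ => ?_)
  · have := (hv k).2 b
    rwa [show s + k - σ b = s - σ b + k by ring] at this
  · have := h.mul (hw a k) (h.sy_mem (hs a b))
    rwa [show s - σ' a + k + (σ' a - σ b) = s - σ b + k by ring] at this

/-! Step RES. -/

section
variable {F ι Λ : Type} [Field F] [Ring Λ] [Algebra F Λ]
  {μ : ι → ℤ} {ev : MvPolynomial ι F →ₗ[F] Λ} {Fl : ℤ → Submodule F Λ}

theorem res_dd {n n' n'' : ℕ} (d : Matrix (Fin n') (Fin n) Λ) (d' : Matrix (Fin n'') (Fin n') Λ)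
    (h : ∀ a, d' a ∈ LinearMap.ker d.vecMulLinear) : d' * d = 0 := by
  ext a b
  have := congrFun (LinearMap.mem_ker.1 (h a)) b
  simpa [Matrix.mul_apply, Matrix.vecMul, dotProduct] using this

theorem res_sy_vecMul (h : FZ μ ev Fl) {n n' : ℕ} {σ : Fin n → ℤ} {σ' : Fin n' → ℤ}
    {d : Matrix (Fin n') (Fin n) Λ} {δ : Matrix (Fin n') (Fin n) (MvPolynomial ι F)}
    (hd : ∀ a b, Sy μ ev Fl (σ' a - σ b) (d a b) (δ a b)) {s : ℤ} {w : Fin n' → Λ}
    {W : Fin n' → MvPolynomial ι F} (hw : ∀ a, Sy μ ev Fl (s - σ' a) (w a) (W a)) (b : Fin n) :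
    Sy μ ev Fl (s - σ b) (Matrix.vecMul w d b) (Matrix.vecMul W δ b) := by
  simp only [Matrix.vecMul, dotProduct]
  exact Sy.sum _ fun a _ => h.sy_mul (hw a) (hd a b) (by ring)

theorem res_symb (h : FZ μ ev Fl) {n n' n'' : ℕ} {σ : Fin n → ℤ} {σ' : Fin n' → ℤ}
    {σ'' : Fin n'' → ℤ}
    {d : Matrix (Fin n') (Fin n) Λ} {δ : Matrix (Fin n') (Fin n) (MvPolynomial ι F)}
    {d' : Matrix (Fin n'') (Fin n') Λ} {δ' : Matrix (Fin n'') (Fin n') (MvPolynomial ι F)}
    (hd : ∀ a b, Sy μ ev Fl (σ' a - σ b) (d a b) (δ a b))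
    (hd' : ∀ a b, Sy μ ev Fl (σ'' a - σ' b) (d' a b) (δ' a b)) (h0 : d' * d = 0) :
    δ' * δ = 0 := by
  ext1 a b
  have h1 := res_sy_vecMul h hd (hd' a) b
  have h2 : Matrix.vecMul (d' a) d b = 0 := congrFun (congrFun h0 a) b
  exact h.sy_eq_zero h1 (by rw [h2]; exact zero_mem _)

theorem res_exact (h : FZ μ ev Fl) {n n' n'' : ℕ} {σ : Fin n → ℤ} {σ' : Fin n' → ℤ}
    {σ'' : Fin n'' → ℤ} {J : Submodule Λ (Fin n → Λ)}
    {d : Matrix (Fin n') (Fin n) Λ} {δ : Matrix (Fin n') (Fin n) (MvPolynomial ι F)}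
    {δ' : Matrix (Fin n'') (Fin n') (MvPolynomial ι F)} (hrow : ∀ a, d a ∈ J)
    (hd : ∀ a b, Sy μ ev Fl (σ' a - σ b) (d a b) (δ a b)) (h2 : G2 Fl σ σ' J d)
    (h1 : G1 μ ev Fl σ' σ'' (LinearMap.ker d.vecMulLinear) δ') (Q : Fin n' → MvPolynomial ι F)
    (hQ : Matrix.vecMul Q δ = 0) : ∃ q, Matrix.vecMul q δ' = Q := by
  classical
  have hom : ∀ (s : ℤ) (W : Fin n' → MvPolynomial ι F),
      (∀ a, (W a).IsWeightedHomogeneous μ (s - σ' a)) → Matrix.vecMul W δ = 0 →
      W ∈ LinearMap.range δ'.vecMulLinear := by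
    intro s W hW hW0
    have hw : ∀ a, Sy μ ev Fl (s - σ' a) (ev (W a)) (W a) := fun a => h.sy_ev (hW a)
    have hJ : Matrix.vecMul (fun a => ev (W a)) d ∈ J := by
      rw [Matrix.vecMul_eq_sum]
      exact Submodule.sum_mem _ fun a _ => J.smul_mem _ (hrow a)
    obtain ⟨w', hw', e⟩ := h2 (s + 1) _ hJ fun b => by
      have := res_sy_vecMul h hd hw b
      rw [hW0] at this
      have h3 := Sy.mem_succ this
      rwa [show s - σ b + 1 = s + 1 - σ b by ring] at h3
    obtain ⟨q, -, hq⟩ := h1 s ((fun a => ev (W a)) - w') W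
      (by rw [LinearMap.mem_ker, map_sub]; exact sub_eq_zero.2 e.symm) fun a => by
        have h4 : Sy μ ev Fl (s - σ' a) (w' a) 0 :=
          sy_zero (by rw [show s - σ' a + 1 = s + 1 - σ' a by ring]; exact hw' a)
        simpa using (hw a).sub h4
    exact ⟨q, hq⟩
  let T : Finset ℤ := Finset.univ.biUnion fun a =>
    (Q a).support.image fun α => Finsupp.weight μ α + σ' a
  have hsum : Q = ∑ s ∈ T, fun a => weightedHomogeneousComponent μ (s - σ' a) (Q a) := by
    funext a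
    ext α
    rw [Finset.sum_apply, coeff_sum]
    simp only [coeff_weightedHomogeneousComponent]
    rw [Finset.sum_eq_single (Finsupp.weight μ α + σ' a)]
    · rw [if_pos (by ring)]
    · intro s _ hs
      rw [if_neg fun e => hs (by rw [e]; ring)]
    · intro hs
      rw [if_pos (by ring)]
      by_contra hne
      exact hs (Finset.mem_biUnion.2 ⟨a, Finset.mem_univ _,
        Finset.mem_image.2 ⟨α, mem_support_iff.2 hne, rfl⟩⟩)
  have hmem : Q ∈ LinearMap.range δ'.vecMulLinear := by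
    rw [hsum]
    refine Submodule.sum_mem _ fun s _ => hom s _
      (fun a => weightedHomogeneousComponent_isWeightedHomogeneous _ _) ?_
    funext b
    have h5 := congrArg (weightedHomogeneousComponent μ (s - σ b)) (congrFun hQ b)
    simp only [Matrix.vecMul, dotProduct, map_sum, Pi.zero_apply, map_zero] at h5 ⊢
    rw [← h5]
    exact Finset.sum_congr rfl fun a _ => (comp_mul μ (Q a) (hd a b).1 (by ring)).symm
  exact hmem

theorem res_first {n' : ℕ} {σ' : Fin n' → ℤ} {J : Submodule Λ Λ}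
    {δ : Matrix (Fin n') (Fin 1) (MvPolynomial ι F)}
    (h1 : G1 μ ev Fl (0 : Fin 1 → ℤ) σ' (Submodule.pi Set.univ fun _ => J) δ)
    (f : MvPolynomial ι F) (hf : f ∈ grI μ ev Fl J) :
    ∃ s : Matrix (Fin 1) (Fin n') (MvPolynomial ι F),
      s * δ = f • (1 : Matrix (Fin 1) (Fin 1) (MvPolynomial ι F)) := by
  induction hf using Submodule.span_induction with
  | mem P hP =>
    obtain ⟨t, a, ha, hs⟩ := hP
    obtain ⟨q, -, hq⟩ := h1 t (fun _ => a) (fun _ => P) (fun _ _ => ha) fun b => by simpa using hs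
    refine ⟨Matrix.of fun _ => q, ?_⟩
    ext1 i j
    have := congrFun hq j
    rw [Subsingleton.elim i j]
    simpa [Matrix.mul_apply, Matrix.vecMul, dotProduct] using this
  | zero => exact ⟨0, by simp⟩
  | add P Q _ _ hP hQ =>
    obtain ⟨s, hs⟩ := hP
    obtain ⟨s', hs'⟩ := hQ
    exact ⟨s + s', by rw [Matrix.add_mul, hs, hs', add_smul]⟩
  | smul c P _ hP =>
    obtain ⟨s, hs⟩ := hP
    exact ⟨c • s, by rw [Matrix.smul_mul, hs, smul_smul, smul_eq_mul]⟩

end

theorem p_RES (hGENA : S_GENA) (hGENB : S_GENB) :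
    S_RES := by
  intro F ι Λ _ _ _ _ μ ev Fl h J
  have H : ∀ (n : ℕ) (σ : Fin n → ℤ) (J : Submodule Λ (Fin n → Λ)),
      ∃ (n' : ℕ) (σ' : Fin n' → ℤ) (d : Matrix (Fin n') (Fin n) Λ)
        (δ : Matrix (Fin n') (Fin n) (MvPolynomial ι F)),
        (∀ a, d a ∈ J) ∧ (∀ a b, Sy μ ev Fl (σ' a - σ b) (d a b) (δ a b)) ∧
          G1 μ ev Fl σ σ' J δ ∧ G2 Fl σ σ' J d := by
    intro n σ J
    obtain ⟨n', σ', d, δ, h1, h2, h3⟩ := hGENA F ι Λ μ ev Fl h n σ J
    exact ⟨n', σ', d, δ, h1, h2, h3, hGENB F ι Λ μ ev Fl h n n' σ σ' J d δ h1 h2 h3⟩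
  choose N Sg D Δ hrow hsy hG1 hG2 using H
  let St := Σ n : ℕ, (Fin n → ℤ) × Submodule Λ (Fin n → Λ)
  let step : St → St := fun s =>
    ⟨N s.1 s.2.1 s.2.2, Sg s.1 s.2.1 s.2.2, LinearMap.ker (D s.1 s.2.1 s.2.2).vecMulLinear⟩
  let st : ℕ → St := fun j =>
    Nat.rec ⟨1, 0, Submodule.pi Set.univ fun _ => J⟩ (fun _ s => step s) j
  let n : ℕ → ℕ := fun j => Nat.casesOn j 0 fun j => (st j).1
  let σ : ∀ j, Fin (n j) → ℤ := fun j => Nat.casesOn j Fin.elim0 fun j => (st j).2.1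
  let d : ∀ j, Matrix (Fin (n (j + 1))) (Fin (n j)) Λ := fun j =>
    Nat.casesOn j 0 fun j => D (st j).1 (st j).2.1 (st j).2.2
  let δ : ∀ j, Matrix (Fin (n (j + 1))) (Fin (n j)) (MvPolynomial ι F) := fun j =>
    Nat.casesOn j 0 fun j => Δ (st j).1 (st j).2.1 (st j).2.2
  have hs : ∀ j a b, Sy μ ev Fl (σ (j + 1) a - σ j b) (d j a b) (δ j a b) := by
    intro j
    cases j with
    | zero => exact fun a b => Fin.elim0 b
    | succ j => exact hsy (st j).1 (st j).2.1 (st j).2.2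
  have hdd : ∀ j, d (j + 1) * d j = 0 := by
    intro j
    cases j with
    | zero => exact Matrix.mul_zero _
    | succ j => exact res_dd _ _ (hrow (st (j + 1)).1 (st (j + 1)).2.1 (st (j + 1)).2.2)
  refine ⟨n, σ, d, δ, Fin.isEmpty', ⟨(0 : Fin 1)⟩, hs, hdd,
    fun j => res_symb h (hs j) (hs (j + 1)) (hdd j), fun a b => ?_, fun f hf => ?_,
    fun j Q hQ => ?_⟩
  · exact hrow (st 0).1 (st 0).2.1 (st 0).2.2 a b (Set.mem_univ _)
  · exact res_first (hG1 (st 0).1 (st 0).2.1 (st 0).2.2) f hf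
  · exact res_exact h (hrow (st j).1 (st j).2.1 (st j).2.2) (hsy (st j).1 (st j).2.1 (st j).2.2)
      (hG2 (st j).1 (st j).2.1 (st j).2.2)
      (hG1 (st (j + 1)).1 (st (j + 1)).2.1 (st (j + 1)).2.2) Q hQ

/-! Step VAN. -/

theorem p_VAN :
    S_VAN := by
  intro S _ n δ I h0 hdd hI hex l hl hreg j hj v hv
  have key := RV.van (n := fun j => Fin (n (j + 1))) (fun j => δ (j + 1)) (fun j => hdd (j + 1))
    (fun j v hv => (hex j v hv).imp fun _ h => h.symm) l (fun f hf v => by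
      obtain ⟨s, hs⟩ := hI f (hl f hf)
      refine ⟨Matrix.vecMul v s, ?_⟩
      rw [Matrix.vecMul_vecMul, hs, Matrix.vecMul_smul, Matrix.vecMul_one]) hreg
  rcases j with _ | j
  · have := key.1 hj v hv
    exact ⟨0, by rw [this, act_zero]⟩
  · obtain ⟨u, hu⟩ := key.2 j hj v hv
    exact ⟨u, hu.symm⟩

/-! Step LIFTX. -/

section
variable {F ι Λ A B C : Type} [Field F] [Ring Λ] [Algebra F Λ] [Fintype A] [Fintype B]
  {μ : ι → ℤ} {ev : MvPolynomial ι F →ₗ[F] Λ} {Fl : ℤ → Submodule F Λ}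

theorem liftx_step (h : FZ μ ev Fl) {σ0 : A → ℤ} {σ1 : B → ℤ} {σ2 : C → ℤ}
    {d0 : Matrix B A Λ} {δ0 : Matrix B A (MvPolynomial ι F)}
    {d1 : Matrix C B Λ} {δ1 : Matrix C B (MvPolynomial ι F)}
    (h0 : ∀ a b, Sy μ ev Fl (σ1 a - σ0 b) (d0 a b) (δ0 a b))
    (h1 : ∀ c a, Sy μ ev Fl (σ2 c - σ1 a) (d1 c a) (δ1 c a))
    (hex : ∀ V : B → MvPolynomial ι F, act δ1 V = 0 → ∃ W, act δ0 W = V)
    (s : ℤ) (v : B → Λ) (hv : act d1 v = 0) (hl : ∀ a, v a ∈ Fl (s + σ1 a)) :
    ∃ w : A → Λ, (∀ b, w b ∈ Fl (s + σ0 b)) ∧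
      ∀ a, (v - act d0 w) a ∈ Fl (s + σ1 a + 1) := by
  classical
  choose V hV using fun a => h.exists_sy (hl a)
  have hVc : act δ1 V = 0 := by
    funext c
    have e1 : Sy μ ev Fl (s + σ2 c) (∑ a, d1 c a * v a) (∑ a, δ1 c a * V a) :=
      Sy.sum _ fun a _ => h.sy_mul (h1 c a) (hV a) (by ring)
    have e2 : ∑ a, d1 c a * v a = 0 := by
      simpa [act] using congrFun hv c
    have e3 := h.sy_eq_zero e1 (by rw [e2]; exact zero_mem _)
    simpa [act] using e3
  obtain ⟨W, hW⟩ := hex V hVc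
  have hW' : ∀ b, Sy μ ev Fl (s + σ0 b) (ev (weightedHomogeneousComponent μ (s + σ0 b) (W b)))
      (weightedHomogeneousComponent μ (s + σ0 b) (W b)) :=
    fun b => h.sy_ev (weightedHomogeneousComponent_isWeightedHomogeneous _ _)
  refine ⟨fun b => ev (weightedHomogeneousComponent μ (s + σ0 b) (W b)),
    fun b => h.sy_mem (hW' b), fun a => ?_⟩
  have e1 : Sy μ ev Fl (s + σ1 a)
      (∑ b, d0 a b * ev (weightedHomogeneousComponent μ (s + σ0 b) (W b)))
      (∑ b, δ0 a b * weightedHomogeneousComponent μ (s + σ0 b) (W b)) :=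
    Sy.sum _ fun b _ => h.sy_mul (h0 a b) (hW' b) (by ring)
  have e2 : ∑ b, δ0 a b * W b = V a := by
    simpa [act] using congrFun hW a
  have e3 : ∑ b, δ0 a b * weightedHomogeneousComponent μ (s + σ0 b) (W b) = V a := by
    have e4 := congrArg (weightedHomogeneousComponent μ (s + σ1 a)) e2
    rw [weightedHomogeneousComponent_of_mem (hV a).1, if_pos rfl, map_sum] at e4
    rw [← e4]
    refine Finset.sum_congr rfl fun b _ => ?_
    rw [mul_comm (δ0 a b) (W b), comp_mul μ (s := s + σ0 b) (W b) (h0 a b).1 (by ring), mul_comm]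
  have e5 := (hV a).sub e1
  rw [e3, sub_self] at e5
  simpa [act] using e5.mem_succ

theorem liftx_one (h : FZ μ ev Fl) {σ0 : A → ℤ} {σ1 : B → ℤ} {σ2 : C → ℤ}
    {d0 : Matrix B A Λ} {δ0 : Matrix B A (MvPolynomial ι F)}
    {d1 : Matrix C B Λ} {δ1 : Matrix C B (MvPolynomial ι F)}
    (h0 : ∀ a b, Sy μ ev Fl (σ1 a - σ0 b) (d0 a b) (δ0 a b))
    (h1 : ∀ c a, Sy μ ev Fl (σ2 c - σ1 a) (d1 c a) (δ1 c a))
    (hdd : d1 * d0 = 0)
    (hex : ∀ V : B → MvPolynomial ι F, act δ1 V = 0 → ∃ W, act δ0 W = V)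
    (v : B → Λ) (hv : act d1 v = 0) : ∃ w : A → Λ, act d0 w = v := by
  classical
  obtain ⟨M, hM⟩ := (Set.finite_range σ1).bddAbove
  have step : ∀ (k : ℕ) (u : A → Λ), (∀ a, (v - act d0 u) a ∈ Fl (-M + k + σ1 a)) →
      ∃ u' : A → Λ, (∀ b, u' b - u b ∈ Fl (-M + σ0 b + k)) ∧
        ∀ a, (v - act d0 u') a ∈ Fl (-M + (k + 1 : ℕ) + σ1 a) := by
    intro k u hu
    have hc : act d1 (v - act d0 u) = 0 := by
      rw [act_sub, hv, act_act, hdd, zero_act, sub_zero]
    obtain ⟨w, hw1, hw2⟩ := liftx_step h h0 h1 hex (-M + k) _ hc hu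
    refine ⟨u + w, fun b => ?_, fun a => ?_⟩
    · have e : -M + σ0 b + k = -M + k + σ0 b := by ring
      rw [e]
      simpa using hw1 b
    · have e : -M + ((k + 1 : ℕ) : ℤ) + σ1 a = -M + k + σ1 a + 1 := by
        push_cast
        ring
      rw [e, act_add, ← sub_sub]
      exact hw2 a
  choose! f hf1 hf2 using step
  let U : ℕ → A → Λ := fun k => Nat.rec 0 (fun k u => f k u) k
  have hU : ∀ k : ℕ, ∀ a, (v - act d0 (U k)) a ∈ Fl (-M + k + σ1 a) := by
    intro k
    induction k with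
    | zero =>
      intro a
      have : σ1 a ≤ M := hM ⟨a, rfl⟩
      rw [h.top _ (by simp only [Nat.cast_zero]; omega)]
      exact Submodule.mem_top
    | succ k ih => exact hf2 k (U k) ih
  choose w hw using fun b => h.complete (-M + σ0 b) (fun k => U k b) fun k => hf1 k (U k) (hU k) b
  refine ⟨w, ?_⟩
  funext a
  refine (sub_eq_zero.1 (h.sep (-M + σ1 a) (v a - act d0 w a) fun k => ?_)).symm
  have e1 : act d0 (w - U k) a ∈ Fl (-M + σ1 a + k) := by
    refine sum_mem fun b _ => ?_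
    have e2 := h.mul (h.sy_mem (h0 a b)) (hw b k)
    have e : σ1 a - σ0 b + (-M + σ0 b + k) = -M + σ1 a + k := by ring
    rw [e] at e2
    simpa using e2
  have e3 := hU k a
  have e : -M + k + σ1 a = -M + σ1 a + k := by ring
  rw [e] at e3
  have e4 := sub_mem e3 e1
  rw [act_sub] at e4
  simpa using e4

end

theorem p_LIFTX :
    S_LIFTX := by
  intro F ι Λ _ _ _ μ ev Fl h n σ d δ hs hdd c hex r j hj v hv
  have key : ∀ i : Fin r, ∃ w : Fin (n j) → Λ, act (d j) w = fun b => v b i := by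
    intro i
    refine liftx_one h (hs j) (hs (j + 1)) (hdd j) (hex j hj) _ ?_
    funext a
    simpa [act, Finset.sum_apply] using congrFun (congrFun hv a) i
  choose w hw using key
  refine ⟨fun b i => w i b, ?_⟩
  funext a i
  simpa [act, Finset.sum_apply] using congrFun (hw i) a

/-! Step SNAKE. -/

section
variable {R M : Type} [Ring R] [AddCommGroup M] [Module R M]

/-- exactness modulo `K`, on representatives -/
def snake_ExK (n : ℕ → ℕ) (d : ∀ j, Matrix (Fin (n (j + 1))) (Fin (n j)) R)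
    (K : Submodule R M) (c : ℕ) : Prop :=
  ∀ j < c, ∀ v : Fin (n (j + 1)) → M, (∀ a, act (d (j + 1)) v a ∈ K) →
    ∃ w : Fin (n j) → M, ∀ a, v a - act (d j) w a ∈ K

theorem snake_act_mem {a b : Type} [Fintype b] (d : Matrix a b R) (K : Submodule R M)
    (v : b → M) (hv : ∀ i, v i ∈ K) (i : a) : act d v i ∈ K :=
  K.sum_mem fun j _ => K.smul_mem _ (hv j)

theorem snake_quot (n : ℕ → ℕ) (d : ∀ j, Matrix (Fin (n (j + 1))) (Fin (n j)) R)
    (K : Submodule R M) (c : ℕ) (h : snake_ExK n d K c) : Ex n d (M ⧸ K) c := by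
  intro j hj v hv
  choose u hu using fun a => K.mkQ_surjective (v a)
  have hv' : v = fun a => K.mkQ (u a) := funext fun a => (hu a).symm
  have h1 : ∀ a, act (d (j + 1)) u a ∈ K := by
    intro a
    have h2 := congrFun (map_act K.mkQ (d (j + 1)) u) a
    rw [← hv', hv] at h2
    exact (Submodule.Quotient.mk_eq_zero K).1 h2
  obtain ⟨w, hw⟩ := h j hj u h1
  refine ⟨fun b => K.mkQ (w b), ?_⟩
  rw [← map_act K.mkQ (d j) w, hv']
  funext a
  exact ((Submodule.Quotient.eq K).2 (hw a)).symm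

theorem snake_bot (n : ℕ → ℕ) (d : ∀ j, Matrix (Fin (n (j + 1))) (Fin (n j)) R)
    (c : ℕ) (h : Ex n d M c) : snake_ExK n d (⊥ : Submodule R M) c := by
  intro j hj v hv
  obtain ⟨w, hw⟩ := h j hj v (funext fun a => (Submodule.mem_bot R).1 (hv a))
  refine ⟨w, fun a => ?_⟩
  rw [hw, sub_self]
  exact Submodule.zero_mem _

theorem snake_step (n : ℕ → ℕ) (d : ∀ j, Matrix (Fin (n (j + 1))) (Fin (n j)) R)
    (hd : ∀ j, d (j + 1) * d j = 0) (K : Submodule R M) (y : Module.End R M)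
    (hK : ∀ m ∈ K, y m ∈ K) (hy : ∀ m, y m ∈ K → m ∈ K) (c : ℕ)
    (h : snake_ExK n d K (c + 1)) : snake_ExK n d (K ⊔ LinearMap.range y) c := by
  intro j hj v hv
  have h0 : ∀ a, ∃ u : M, act (d (j + 1)) v a - y u ∈ K := by
    intro a
    obtain ⟨p, hp, q, ⟨u, rfl⟩, hpq⟩ := Submodule.mem_sup.1 (hv a)
    refine ⟨u, ?_⟩
    rw [← hpq, add_sub_cancel_right]
    exact hp
  choose u hu using h0
  have h1 : ∀ a, act (d (j + 1 + 1)) u a ∈ K := by
    intro a
    apply hy
    have h2 := snake_act_mem (d (j + 1 + 1)) K (act (d (j + 1)) v - fun b => y (u b)) hu a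
    rw [act_sub, act_act, hd, zero_act, ← map_act y] at h2
    have h3 := K.neg_mem h2
    simpa using h3
  obtain ⟨w, hw⟩ := h (j + 1) (by omega) u h1
  have h4 : ∀ a, act (d (j + 1)) (v - fun b => y (w b)) a ∈ K := by
    intro a
    rw [act_sub, ← map_act y]
    have h5 := K.add_mem (hu a) (hK _ (hw a))
    rw [map_sub, sub_add_sub_cancel] at h5
    exact h5
  obtain ⟨z, hz⟩ := h j (by omega) _ h4
  refine ⟨z, fun a => ?_⟩
  have h6 : v a - act (d j) z a = ((v - fun b => y (w b)) a - act (d j) z a) + y (w a) := by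
    simp only [Pi.sub_apply]
    abel
  rw [h6]
  exact Submodule.add_mem_sup (hz a) ⟨w a, rfl⟩

theorem snake_mono (n : ℕ → ℕ) (d : ∀ j, Matrix (Fin (n (j + 1))) (Fin (n j)) R)
    (K : Submodule R M) (c : ℕ) (h : snake_ExK n d K (c + 1)) : snake_ExK n d K c :=
  fun j hj => h j (by omega)

theorem snake_range_le {g : ℕ} (x : Fin g → Module.End R M) (k : ℕ) (j : Fin g)
    (hj : j.val < k) : LinearMap.range (x j) ≤ Kx x k :=
  le_iSup₂_of_le (f := fun (j : Fin g) (_ : j.val < k) => LinearMap.range (x j)) j hj le_rfl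

theorem snake_Kx_zero {g : ℕ} (x : Fin g → Module.End R M) : Kx x 0 = ⊥ := by
  refine le_antisymm (iSup₂_le fun j hj => absurd hj (Nat.not_lt_zero _)) bot_le

theorem snake_Kx_succ {g : ℕ} (x : Fin g → Module.End R M) (i : Fin g) :
    Kx x (i.val + 1) = Kx x i.val ⊔ LinearMap.range (x i) := by
  refine le_antisymm (iSup₂_le fun j hj => ?_) (sup_le (iSup₂_le fun j hj => ?_) ?_)
  · rcases Nat.lt_succ_iff_lt_or_eq.1 hj with h | h
    · exact le_sup_of_le_left (snake_range_le x _ j h)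
    · have : j = i := Fin.ext h
      subst this
      exact le_sup_right
  · exact snake_range_le x _ j (by omega)
  · exact snake_range_le x _ i (by omega)

theorem snake_Kx_big {g : ℕ} (x : Fin g → Module.End R M) (k : ℕ) (hk : g ≤ k) :
    Kx x (k + 1) = Kx x k := by
  refine le_antisymm (iSup₂_le fun j _ => ?_) (iSup₂_le fun j hj => ?_)
  · exact snake_range_le x _ j (by have := j.isLt; omega)
  · exact snake_range_le x _ j (by omega)

theorem snake_stable {g : ℕ} (x : Fin g → Module.End R M) (hx : ∀ i j, Commute (x i) (x j))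
    (k : ℕ) (i : Fin g) : ∀ m ∈ Kx x k, x i m ∈ Kx x k := by
  have h : Kx x k ≤ (Kx x k).comap (x i) := by
    refine iSup₂_le fun j hj => ?_
    rintro _ ⟨u, rfl⟩
    refine snake_range_le x k j hj ⟨x i u, ?_⟩
    exact LinearMap.congr_fun (hx j i).eq u
  exact fun m hm => h hm

end

theorem p_SNAKE :
    S_SNAKE := by
  intro R M _ _ _ n d hd g x hx k c hreg hex
  apply snake_quot
  induction k generalizing c with
  | zero =>
    rw [snake_Kx_zero]
    exact snake_bot n d c hex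
  | succ k ih =>
    have h1 : snake_ExK n d (Kx x k) (c + 1) :=
      ih (c + 1) (fun j hj => hreg j (by omega)) (by rwa [add_assoc, add_comm 1 k])
    by_cases hk : k < g
    · rw [snake_Kx_succ x ⟨k, hk⟩]
      exact snake_step n d hd _ _ (snake_stable x hx k ⟨k, hk⟩)
        (hreg ⟨k, hk⟩ (Nat.lt_succ_self k)) c h1
    · rw [snake_Kx_big x k (by omega)]
      exact snake_mono n d _ c h1

/-! Step REG. -/

theorem p_REG :
    S_REG := by
  intro F ι _ _ I e c h hc
  exact RV.reg' e I h c hc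

/-! Step GRA. -/

theorem gra_rk {F H A B : Type} [Field F] [AddCommGroup H] [Module F H] [AddCommGroup A]
    [Module F A] [AddCommGroup B] [Module F B] (f : H →ₗ[F] A) (g : H →ₗ[F] B)
    (h : LinearMap.ker g ≤ LinearMap.ker f) :
    Module.rank F (LinearMap.range f) ≤ Module.rank F (LinearMap.range g) := by
  rw [← f.quotKerEquivRange.rank_eq, ← g.quotKerEquivRange.rank_eq]
  exact (Submodule.factor h).rank_le_of_surjective (Submodule.factor_surjective h)

theorem p_GRA :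
    S_GRA := by
  intro F ι Λ _ _ _ μ ev Fl h J s
  classical
  induction s with
  | zero =>
    have h0 : Vs μ (grI μ ev Fl J) (0 : ℕ) = ⊥ := by
      refine eq_bot_iff.2 ?_
      rintro _ ⟨P, hP, rfl⟩
      have : P = 0 := by
        by_contra k
        obtain ⟨α, hα⟩ := ne_zero_iff.1 k
        have h1 : Finsupp.weight μ α < (0 : ℕ) := hP (mem_support_iff.2 hα)
        refine h1.not_ge ?_
        rw [Finsupp.weight_apply]
        exact Finset.sum_nonneg fun i _ => nsmul_nonneg (h.pos i).le _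
      rw [this, map_zero]
      exact Submodule.zero_mem _
    rw [h0, rank_bot]
    exact zero_le
  | succ s ih =>
    let H := weightedHomogeneousSubmodule F μ (s : ℤ)
    let f := (Ideal.Quotient.mkₐ F (grI μ ev Fl J)).toLinearMap ∘ₗ H.subtype
    let g := (Fl ((s + 1 : ℕ) : ℤ) ⊔ J.restrictScalars F).mkQ ∘ₗ ev ∘ₗ H.subtype
    have l : Fl ((s + 1 : ℕ) : ℤ) ⊔ J.restrictScalars F ≤ Fl s ⊔ J.restrictScalars F :=
      sup_le_sup_right (h.anti (by omega)) _
    have h1 : Vs μ (grI μ ev Fl J) (s + 1 : ℕ) ≤ Vs μ (grI μ ev Fl J) s ⊔ LinearMap.range f := by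
      rintro _ ⟨P, hP, rfl⟩
      rw [← sub_add_cancel P (weightedHomogeneousComponent μ (s : ℤ) P), map_add]
      refine Submodule.add_mem_sup ⟨_, fun α hα => ?_, rfl⟩
        ⟨⟨_, weightedHomogeneousComponent_isWeightedHomogeneous _ _⟩, rfl⟩
      have h2 : coeff α (P - weightedHomogeneousComponent μ (s : ℤ) P) ≠ 0 := mem_support_iff.1 hα
      rw [coeff_sub, coeff_weightedHomogeneousComponent] at h2
      split_ifs at h2 with k
      · exact (h2 (sub_self _)).elim
      · have h3 : Finsupp.weight μ α < (s + 1 : ℕ) := hP (mem_support_iff.2 (by simpa using h2))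
        show Finsupp.weight μ α < s
        omega
    have h2 : LinearMap.range g ≤ LinearMap.ker (Submodule.factor l) := by
      rintro _ ⟨P, rfl⟩
      exact (Submodule.Quotient.mk_eq_zero _).2 (Submodule.mem_sup_left (h.ev_mem P.2))
    have h3 : LinearMap.ker g ≤ LinearMap.ker f := fun P hP => by
      obtain ⟨b, hb, a, ha, e⟩ := Submodule.mem_sup.1 ((Submodule.Quotient.mk_eq_zero _).1 hP)
      refine Ideal.Quotient.eq_zero_iff_mem.2 (Ideal.subset_span ⟨s, a, ha, P.2, ?_⟩)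
      have e' : b + a = ev (H.subtype P) := e
      rw [← e', sub_add_cancel_right]
      exact neg_mem (by simpa using hb)
    refine (Submodule.rank_mono h1).trans ((Submodule.rank_add_le_rank_add_rank _ _).trans ?_)
    rw [← (Submodule.factor l).rank_range_add_rank_ker,
      LinearMap.range_eq_top.2 (Submodule.factor_surjective l), rank_top]
    exact add_le_add ih ((gra_rk f g h3).trans (Submodule.rank_mono h2))

/-! Step GRB. -/

theorem p_GRB :
    S_GRB := by
  intro F ι _ μ I C e h y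
  classical
  refine RV.dep_of_growth I
    (fun s => restrictSupport F {α : ι →₀ ℕ | Finsupp.weight μ α < ((s + 1 : ℕ) : ℤ)})
    ?_ ?_ ?_ ?_ (C * 2 ^ e) e ?_ ?_ y
  · intro s t hst
    refine restrictSupport_mono F fun α hα => ?_
    simp only [Set.mem_ofPred_eq] at hα ⊢
    omega
  · intro α hα
    have : α = 0 := by
      by_contra hne
      have hα' : α ∈ (1 : MvPolynomial ι F).support := hα
      exact (mem_support_iff.1 hα') (by rw [coeff_one, if_neg (Ne.symm hne)])
    simp [this]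
  · intro s t a b ha hb α hα
    obtain ⟨β, hβ, γ, hγ, rfl⟩ := Finset.mem_add.1 (support_mul a b hα)
    have h1 : Finsupp.weight μ β < ((s + 1 : ℕ) : ℤ) := ha hβ
    have h2 : Finsupp.weight μ γ < ((t + 1 : ℕ) : ℤ) := hb hγ
    simp only [Set.mem_ofPred_eq, map_add]
    omega
  · intro a
    refine ⟨a.support.sup fun α => (Finsupp.weight μ α).toNat, fun α hα => ?_⟩
    have := Finset.le_sup (f := fun α => (Finsupp.weight μ α).toNat) (show α ∈ a.support from hα)
    simp only [Set.mem_ofPred_eq] at this ⊢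
    omega
  · intro s
    exact Module.rank_lt_aleph0_iff.1 ((h (s + 1)).trans_lt Cardinal.natCast_lt_aleph0)
  · intro s
    refine (Module.finrank_le_of_rank_le (h (s + 1))).trans ?_
    rw [mul_assoc, ← mul_pow]
    gcongr
    omega

/-! Step AR. -/

theorem p_AR (hGENA : S_GENA) (hGENB : S_GENB) :
    S_AR := by
  intro F ι Λ _ _ _ _ μ ev Fl h r K t
  obtain ⟨n', σ', d, δ, h1, h2, h3⟩ := hGENA F ι Λ μ ev Fl h r 0 (Submodule.span Λ {t} ⊔ K)
  have h4 := hGENB F ι Λ μ ev Fl h r n' 0 σ' _ d δ h1 h2 h3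
  have h5 : ∀ a, ∃ α : Λ, d a - α • t ∈ K := fun a => by
    obtain ⟨y, hy, k, hk, e⟩ := Submodule.mem_sup.1 (h1 a)
    obtain ⟨α, rfl⟩ := Submodule.mem_span_singleton.1 hy
    exact ⟨α, by rw [← e]; simpa using hk⟩
  choose α hα using h5
  refine ⟨∑ a, (σ' a).toNat, fun s a ha => ?_⟩
  obtain ⟨u, hu, k, hk, e⟩ := Submodule.mem_sup.1 ha
  have hk' : k ∈ K := hk
  obtain ⟨w, hw, e'⟩ := h4 (s + (∑ a, (σ' a).toNat : ℕ)) u (by
    rw [eq_sub_of_add_eq e]
    exact sub_mem (Submodule.mem_sup_left (Submodule.smul_mem _ _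
      (Submodule.mem_span_singleton_self t))) (Submodule.mem_sup_right hk'))
    fun b => by simpa using mem_FlM.1 hu b
  refine ⟨∑ i, w i * α i, sum_mem fun i _ => ?_, ?_⟩
  · have h6 : (σ' i).toNat ≤ ∑ a, (σ' a).toNat :=
      Finset.single_le_sum (f := fun a => (σ' a).toNat) (fun _ _ => Nat.zero_le _)
        (Finset.mem_univ i)
    have h7 : α i ∈ Fl 0 := by rw [h.top 0 le_rfl]; trivial
    exact h.anti (by omega) (h.mul (hw i) h7)
  · have e2 : (a - ∑ i, w i * α i) • t = k + ∑ i, w i • (d i - α i • t) := by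
      have e3 : u = ∑ i, w i • d i := by
        rw [← e']
        funext b
        simp [Matrix.vecMul, dotProduct]
      rw [sub_smul, ← e, e3, Finset.sum_smul]
      simp only [smul_sub, Finset.sum_sub_distrib, mul_smul]
      abel
    rw [e2]
    exact add_mem hk' (sum_mem fun i _ => K.smul_mem _ (hα i))

/-! Step GR1. -/

theorem gr1_fin {F V : Type} [Field F] [AddCommGroup V] [Module F V] {W W' : Submodule F V}
    (h : W ≤ W') (hW : Module.Finite F (V ⧸ W)) : Module.Finite F (V ⧸ W') :=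
  Module.Finite.of_surjective (Submodule.factor h) (Submodule.factor_surjective h)

theorem gr1_step {F V : Type} [Field F] [AddCommGroup V] [Module F V] {W W' U : Submodule F V}
    (h : W' ≤ W) (z : V →ₗ[F] V) (hz : U ≤ W'.comap z) (hW : W ≤ W' ⊔ LinearMap.range z)
    (f1 : Module.Finite F (V ⧸ W')) (f2 : Module.Finite F (V ⧸ U)) :
    Module.finrank F (V ⧸ W') ≤ Module.finrank F (V ⧸ W) + Module.finrank F (V ⧸ U) := by
  have f3 := gr1_fin h f1
  rw [← (Submodule.factor h).finrank_range_add_finrank_ker]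
  refine add_le_add (Submodule.finrank_le _) (le_trans (Submodule.finrank_mono ?_)
    (U.mapQ W' z hz).finrank_range_le)
  intro q hq
  obtain ⟨v, rfl⟩ := W'.mkQ_surjective q
  rw [LinearMap.mem_ker, Submodule.factor_mk, Submodule.mkQ_apply,
    Submodule.Quotient.mk_eq_zero] at hq
  obtain ⟨w, hw, _, ⟨u, rfl⟩, rfl⟩ := Submodule.mem_sup.1 (hW hq)
  refine ⟨U.mkQ u, ?_⟩
  rw [map_add, Submodule.mkQ_apply, Submodule.mapQ_apply, Submodule.mkQ_apply, Submodule.mkQ_apply,
    (Submodule.Quotient.mk_eq_zero _).2 hw, zero_add]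

theorem gr1_pow {F V : Type} [Field F] [AddCommGroup V] [Module F V] {W : Submodule F V}
    (y : Module.End F V) (hy : ∀ v ∈ W, y v ∈ W) (f : Module.Finite F (V ⧸ W)) (n : ℕ) :
    Module.finrank F (V ⧸ (W ⊔ LinearMap.range (y ^ n))) ≤
      n * Module.finrank F (V ⧸ (W ⊔ LinearMap.range y)) := by
  induction n with
  | zero =>
    have e : W ⊔ LinearMap.range (y ^ 0) = ⊤ :=
      top_le_iff.1 fun v _ => Submodule.mem_sup_right ⟨v, by simp⟩
    rw [e, zero_mul, Nat.le_zero]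
    exact Module.finrank_zero_of_subsingleton
  | succ n ih =>
    have hp : ∀ k : ℕ, ∀ v ∈ W, (y ^ k) v ∈ W := fun k => by
      induction k with
      | zero => simp
      | succ k ik => exact fun v hv => by rw [pow_succ, Module.End.mul_apply]; exact ik _ (hy v hv)
    refine le_trans (gr1_step (W := W ⊔ LinearMap.range (y ^ n)) (U := W ⊔ LinearMap.range y)
      (sup_le_sup_left ?_ _) (y ^ n) (sup_le ?_ ?_) (sup_le_sup_right le_sup_left _)
      (gr1_fin le_sup_left f) (gr1_fin le_sup_left f)) (by rw [add_mul, one_mul]; omega)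
    · rintro _ ⟨v, rfl⟩
      exact ⟨y v, by rw [pow_succ, Module.End.mul_apply]⟩
    · exact fun v hv => Submodule.mem_sup_left (hp n v hv)
    · rintro _ ⟨v, rfl⟩
      exact Submodule.mem_sup_right ⟨v, by rw [pow_succ, Module.End.mul_apply]⟩

theorem gr1_filt {F ι Λ : Type} [Field F] [Ring Λ] [Algebra F Λ] {μ : ι → ℤ}
    {ev : MvPolynomial ι F →ₗ[F] Λ} {Fl : ℤ → Submodule F Λ} (h : FZ μ ev Fl) {r : ℕ}
    (y : Module.End Λ (Fin r → Λ)) {c s : ℤ} (hy : ∀ m, y m ∈ FlM Fl r c) {m : Fin r → Λ}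
    (hm : m ∈ FlM Fl r s) : y m ∈ FlM Fl r (s + c) := by
  have e : m = ∑ i, m i • (Pi.single i 1 : Fin r → Λ) := by
    funext j
    simp [Finset.sum_apply, Pi.single_apply]
  rw [e, map_sum]
  refine sum_mem fun i _ => ?_
  rw [map_smul, mem_FlM]
  exact fun j => h.mul (mem_FlM.1 hm i) (mem_FlM.1 (hy _) j)

theorem p_GR1 (hFD : S_FD) :
    S_GR1 := by
  intro F ι Λ _ _ _ _ μ ev Fl h r g x hx a ha C e hC
  have t0 : ∀ m : Fin r → Λ, m ∈ FlM Fl r 0 := fun m =>
    mem_FlM.2 fun i => by rw [h.top 0 le_rfl]; trivial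
  have hN : ∀ j (s : ℕ) m, (x j ^ (a * s)) m ∈ FlM Fl r s := fun j s => by
    induction s with
    | zero => exact fun m => t0 _
    | succ s ih =>
      intro m
      rw [mul_add, mul_one, add_comm (a * s), pow_add, Module.End.mul_apply, Nat.cast_succ]
      exact gr1_filt h _ (ha j) (ih m)
  suffices H : ∀ d k, k + d = g → ∃ C' : ℕ, ∀ s : ℕ,
      Module.finrank F ((Fin r → Λ) ⧸ (FlM Fl r s ⊔ (Kx x k).restrictScalars F)) ≤
        C' * (s + 1) ^ (e + d) from fun k hk => H _ k (by omega)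
  intro d
  induction d with
  | zero => exact fun k hk => ⟨C, by rw [add_zero] at hk; subst hk; exact hC⟩
  | succ d ih =>
    intro k hk
    obtain ⟨C', hC'⟩ := ih (k + 1) (by omega)
    refine ⟨a * C', fun s => ?_⟩
    obtain ⟨j, rfl⟩ : ∃ j : Fin g, j.val = k := ⟨⟨k, by omega⟩, rfl⟩
    have kx : ∀ {n : ℕ} (i : Fin g), i.val < n → ∀ m, x i m ∈ Kx x n := fun i hi m =>
      Submodule.mem_iSup_of_mem i (Submodule.mem_iSup_of_mem hi ⟨m, rfl⟩)
    have h1 : Kx x j ≤ (Kx x j).comap (x j) := iSup₂_le fun i hi => by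
      rintro _ ⟨m, rfl⟩
      rw [Submodule.mem_comap, ← Module.End.mul_apply, (hx j i).eq, Module.End.mul_apply]
      exact kx i hi _
    have h2 := gr1_pow (W := FlM Fl r s ⊔ (Kx x j).restrictScalars F)
      ((x j).restrictScalars F) (fun v hv => by
        obtain ⟨u, hu, w, hw, rfl⟩ := Submodule.mem_sup.1 hv
        rw [map_add]
        refine add_mem (Submodule.mem_sup_left ?_) (Submodule.mem_sup_right (h1 hw))
        simpa using gr1_filt h (x j) (fun m => t0 _) hu)
      (gr1_fin le_sup_left ((hFD F ι Λ μ ev Fl h).2 r s)) (a * s)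
    have hr : ∀ (n : ℕ) m, (((x j).restrictScalars F : Module.End F (Fin r → Λ)) ^ n) m =
        (x j ^ n) m := fun n m => by
      rw [Module.End.pow_apply, Module.End.pow_apply]; rfl
    have e1 : FlM Fl r s ⊔ (Kx x j).restrictScalars F ⊔ LinearMap.range
        (((x j).restrictScalars F : Module.End F (Fin r → Λ)) ^ (a * s)) =
        FlM Fl r s ⊔ (Kx x j).restrictScalars F := sup_eq_left.2 (by
      rintro _ ⟨m, rfl⟩
      rw [hr]
      exact Submodule.mem_sup_left (hN j s m))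
    have e2 : FlM Fl r s ⊔ (Kx x j).restrictScalars F ⊔ LinearMap.range ((x j).restrictScalars F) =
        FlM Fl r s ⊔ (Kx x (j + 1)).restrictScalars F := by
      have k1 : Kx x (j + 1) = Kx x j ⊔ LinearMap.range (x j) := by
        refine le_antisymm (iSup₂_le fun i hi => ?_) (sup_le (iSup₂_le fun i hi => ?_) ?_)
        · rcases Nat.lt_succ_iff_lt_or_eq.1 hi with c | c
          · rintro _ ⟨m, rfl⟩
            exact Submodule.mem_sup_left (kx i c m)
          · rw [Fin.ext c]; exact le_sup_right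
        · rintro _ ⟨m, rfl⟩
          exact kx i (by omega) m
        · rintro _ ⟨m, rfl⟩
          exact kx j (by omega) m
      rw [k1, Submodule.restrictScalars_sup, sup_assoc, LinearMap.range_restrictScalars]
    rw [e1, e2] at h2
    refine h2.trans ((Nat.mul_le_mul_left _ (hC' s)).trans ?_)
    rw [← add_assoc, pow_succ]
    calc a * s * (C' * (s + 1) ^ (e + d)) ≤ a * (s + 1) * (C' * (s + 1) ^ (e + d)) := by
          gcongr; omega
      _ = _ := by ring

/-! Step GR2. -/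

theorem gr2_pres {F ι Λ : Type} [Field F] [Ring Λ] [Algebra F Λ] {μ : ι → ℤ}
    {ev : MvPolynomial ι F →ₗ[F] Λ} {Fl : ℤ → Submodule F Λ} (h : FZ μ ev Fl) {r : ℕ}
    (x : Module.End Λ (Fin r → Λ)) {s : ℤ} {m : Fin r → Λ} (hm : m ∈ FlM Fl r s) :
    x m ∈ FlM Fl r s := by
  classical
  rw [mem_FlM] at hm ⊢
  intro i
  rw [pi_eq_sum_univ m, map_sum, Finset.sum_apply]
  refine Submodule.sum_mem _ fun j _ => ?_
  rw [map_smul, Pi.smul_apply, smul_eq_mul]
  have := h.mul (hm j) (t := 0) (b := x (fun k => if j = k then 1 else 0) i)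
    (by rw [h.top 0 le_rfl]; trivial)
  rwa [add_zero] at this

theorem gr2_lin {F M A : Type} [Field F] [AddCommGroup M] [Module F M] [AddCommGroup A]
    [Module F A] (N : Submodule F M) [Module.Finite F (M ⧸ N)] (x : M →ₗ[F] M)
    (hx : N ≤ N.comap x) (φ : A →ₗ[F] M) (hφ : ∀ a, x (φ a) ∈ N) (J : Submodule F A)
    (hJ : ∀ a, φ a ∈ N → a ∈ J) :
    Module.finrank F (A ⧸ J) ≤ Module.finrank F (M ⧸ (N ⊔ LinearMap.range x)) := by
  set xb := N.mapQ N x hx with hxb
  set ψ := N.mkQ ∘ₗ φ with hψ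
  have h1 : LinearMap.ker ψ ≤ J := fun a ha =>
    hJ a ((Submodule.Quotient.mk_eq_zero _).1 (LinearMap.mem_ker.1 ha))
  have h2 : LinearMap.range ψ ≤ LinearMap.ker xb := by
    rintro _ ⟨a, rfl⟩
    exact (Submodule.Quotient.mk_eq_zero _).2 (hφ a)
  have h3 : Module.Finite F (A ⧸ LinearMap.ker ψ) :=
    Module.Finite.equiv ψ.quotKerEquivRange.symm
  have h4 : Module.finrank F (A ⧸ J) ≤ Module.finrank F (A ⧸ LinearMap.ker ψ) :=
    LinearMap.finrank_le_finrank_of_surjective (Submodule.factor_surjective h1)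
  have h5 := Submodule.finrank_mono h2
  have h6 := xb.finrank_range_add_finrank_ker
  have h7 := (LinearMap.range xb).finrank_quotient_add_finrank
  have h8 : LinearMap.range xb = (N ⊔ LinearMap.range x).map N.mkQ := by
    rw [Submodule.map_sup, Submodule.mkQ_map_self, bot_sup_eq, ← LinearMap.range_comp, hxb,
      ← Submodule.mapQ_mkQ (h := hx), LinearMap.range_comp, Submodule.range_mkQ, Submodule.map_top]
  have h9 := (Submodule.quotientQuotientEquivQuotient N (N ⊔ LinearMap.range x)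
    le_sup_left).finrank_eq
  rw [← h8] at h9
  rw [ψ.quotKerEquivRange.finrank_eq] at h4
  omega

theorem p_GR2 (hFD : S_FD) (hAR : S_AR) :
    S_GR2 := by
  intro F ι Λ _ _ _ _ μ ev Fl h r K x t hK ht
  obtain ⟨c, hc⟩ := hAR F ι Λ μ ev Fl h r K t
  refine ⟨c, fun s => ?_⟩
  have := (hFD F ι Λ μ ev Fl h).2 r (s + c)
  have : Module.Finite F ((Fin r → Λ) ⧸ (FlM Fl r (s + c) ⊔ K.restrictScalars F)) :=
    Module.Finite.of_surjective (Submodule.factor (le_sup_left : FlM Fl r (s + c) ≤ _))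
      (Submodule.factor_surjective _)
  have H := gr2_lin (FlM Fl r (s + c) ⊔ K.restrictScalars F) (x.restrictScalars F)
    (sup_le (fun m hm => Submodule.mem_sup_left (gr2_pres h x hm))
      fun m hm => Submodule.mem_sup_right (hK m hm))
    ((LinearMap.toSpanSingleton Λ (Fin r → Λ) t).restrictScalars F)
    (fun a => Submodule.mem_sup_right (by
      change x (a • t) ∈ K
      rw [map_smul]
      exact K.smul_mem _ ht))
    (Fl s ⊔ (K.comap (LinearMap.toSpanSingleton Λ (Fin r → Λ) t)).restrictScalars F)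
    fun a ha => by
      obtain ⟨b, hb, hb'⟩ := hc s a ha
      rw [← add_sub_cancel b a]
      exact Submodule.add_mem_sup hb hb'
  rwa [LinearMap.range_restrictScalars, sup_assoc, ← Submodule.restrictScalars_sup] at H

/-! Step ABS. -/

theorem abs_Kx_succ {R M : Type} [Ring R] [AddCommGroup M] [Module R M] {g : ℕ}
    (x : Fin g → Module.End R M) (k : Fin g) :
    Kx x (k.val + 1) = Kx x k ⊔ LinearMap.range (x k) := by
  refine le_antisymm (iSup₂_le fun j hj => ?_) (sup_le (iSup₂_le fun j hj => ?_) ?_)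
  · rcases Nat.lt_succ_iff_lt_or_eq.1 hj with h | h
    · exact le_sup_of_le_left (le_iSup₂_of_le (f := fun (j : Fin g) (_ : j.val < k.val) =>
        LinearMap.range (x j)) j h le_rfl)
    · rw [Fin.ext h]
      exact le_sup_right
  · exact le_iSup₂_of_le (f := fun (j : Fin g) (_ : j.val < k.val + 1) => LinearMap.range (x j))
      j (Nat.lt_succ_of_lt hj) le_rfl
  · exact le_iSup₂_of_le (f := fun (j : Fin g) (_ : j.val < k.val + 1) => LinearMap.range (x j))
      k (Nat.lt_succ_self _) le_rfl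

theorem abs_Kx_map {R M : Type} [Ring R] [AddCommGroup M] [Module R M] {g : ℕ}
    (x : Fin g → Module.End R M) (hx : ∀ i j, Commute (x i) (x j)) (i : Fin g) (k : ℕ) :
    ∀ m ∈ Kx x k, x i m ∈ Kx x k := by
  have : Kx x k ≤ (Kx x k).comap (x i) := by
    refine iSup₂_le fun j hj => ?_
    rintro _ ⟨m, rfl⟩
    have e : x i (x j m) = x j (x i m) := LinearMap.congr_fun (hx i j).eq m
    rw [Submodule.mem_comap, e]
    exact (le_iSup₂_of_le (f := fun (j : Fin g) (_ : j.val < k) => LinearMap.range (x j))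
      j hj le_rfl : LinearMap.range (x j) ≤ Kx x k) ⟨_, rfl⟩
  exact fun m hm => this hm

theorem p_ABS (hTOZ : S_TOZ) (hFD : S_FD) (hRES : S_RES) (hVAN : S_VAN) (hLIFTX : S_LIFTX) (hSNAKE : S_SNAKE) (hREG : S_REG) (hGRA : S_GRA) (hGRB : S_GRB) (hGR1 : S_GR1) (hGR2 : S_GR2) :
    S_ABS := by
  intro F ι Λ _ _ _ _ μ₀ ev Fl₀ h₀ r g x hx a ha C e hC hdim
  have h := hTOZ F ι Λ μ₀ ev Fl₀ h₀
  set μ : ι → ℤ := fun i => (μ₀ i : ℤ) with hμ
  set Fl : ℤ → Submodule F Λ := fun t => Fl₀ t.toNat with hFl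
  have hgr := hGR1 F ι Λ μ ev Fl h r g x hx a ha C e hC
  suffices H : ∀ (k : ℕ) (j : Fin g), j.val < k → ∀ m, x j m ∈ Kx x j → m ∈ Kx x j from
    fun k => H (k.val + 1) k (Nat.lt_succ_self _)
  intro k
  induction k with
  | zero => exact fun j hj => absurd hj (Nat.not_lt_zero _)
  | succ k ih =>
    intro j hj t ht
    rcases Nat.lt_succ_iff_lt_or_eq.1 hj with hj | hj
    · exact ih j hj t ht
    subst hj
    set J := (Kx x j).comap (LinearMap.toSpanSingleton Λ (Fin r → Λ) t) with hJ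
    obtain ⟨C', hC'⟩ := hgr (j.val + 1) j.isLt
    obtain ⟨c, hc⟩ := hGR2 F ι Λ μ ev Fl h r (Kx x j) (x j) t (abs_Kx_map x hx j _) ht
    have hdep : DEP (grI μ ev Fl J) (e + (g - (j.val + 1))) := by
      refine hGRB F ι μ _ (C' * (c + 1) ^ (e + (g - (j.val + 1)))) _ fun s => ?_
      refine (hGRA F ι Λ μ ev Fl h J s).trans ?_
      have := (hFD F ι Λ μ ev Fl h).1 s
      have : Module.Finite F (Λ ⧸ (Fl s ⊔ J.restrictScalars F)) :=
        Module.Finite.of_surjective (Submodule.factor (le_sup_left : Fl s ≤ _))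
          (Submodule.factor_surjective _)
      rw [← Module.finrank_eq_rank, Nat.cast_le]
      refine (hc s).trans ?_
      have h1 := hC' (s + c)
      rw [abs_Kx_succ, Nat.cast_add] at h1
      refine h1.trans ?_
      rw [mul_assoc, ← mul_pow]
      exact Nat.mul_le_mul_left _ (Nat.pow_le_pow_left (by nlinarith) _)
    obtain ⟨l, hl, hlI, hreg⟩ := hREG F ι _ _ (j.val + 1) hdep (by have := j.isLt; omega)
    obtain ⟨n, σ, d, δ, h0, ⟨o⟩, hsy, hdd, hδ, hdJ, hI, hex⟩ := hRES F ι Λ μ ev Fl h J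
    have e1 := hVAN _ n δ _ h0 hδ hI hex l hlI hreg
    have e2 := hLIFTX F ι Λ μ ev Fl h n σ d δ hsy hdd _ e1 r
    rw [hl, add_comm] at e2
    have e3 := hSNAKE Λ (Fin r → Λ) n d hdd g x hx j.val 1 ih e2
    obtain ⟨w, hw⟩ := e3 0 Nat.one_pos (fun _ => (Kx x j).mkQ t) (by
      funext b
      refine Finset.sum_eq_zero fun b' _ => ?_
      rw [← map_smul, Submodule.mkQ_apply, Submodule.Quotient.mk_eq_zero]
      exact hdJ b b')
    have := congrFun hw o
    simp only [act, Finset.univ_eq_empty, Finset.sum_empty] at this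
    exact (Submodule.Quotient.mk_eq_zero _).1 this.symm

theorem all_ABS : S_ABS :=
  p_ABS p_TOZ p_FD (p_RES p_GENA p_GENB) p_VAN p_LIFTX p_SNAKE p_REG p_GRA p_GRB (p_GR1 p_FD)
    (p_GR2 p_FD (p_AR p_GENA p_GENB))

end Pool.Agent.P.MP_7cb106_nt.PF
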