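import Pool.Agent.P.MP_7cb106_nt.PF.BaseF

/-! Statements of the steps of the abstract regular sequence theorem. -/

set_option autoImplicit false

namespace Pool.Agent.P.MP_7cb106_nt.PF

open MvPolynomial

-- deps:
def S_TOZ : Prop :=
  ∀ (F ι Λ : Type) [Field F] [Ring Λ] [Algebra F Λ] (μ : ι → ℕ)
    (ev : MvPolynomial ι F →ₗ[F] Λ) (Fl : ℕ → Submodule F Λ), FR μ ev Fl →
    FZ (fun i => (μ i : ℤ)) ev fun t => Fl t.toNat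

-- deps:
def S_FD : Prop :=
  ∀ (F ι Λ : Type) [Field F] [Fintype ι] [Ring Λ] [Algebra F Λ] (μ : ι → ℤ)
    (ev : MvPolynomial ι F →ₗ[F] Λ) (Fl : ℤ → Submodule F Λ), FZ μ ev Fl →
    (∀ s : ℤ, Module.Finite F (Λ ⧸ Fl s)) ∧
    ∀ (r : ℕ) (s : ℤ), Module.Finite F ((Fin r → Λ) ⧸ FlM Fl r s)

-- deps:
def S_GENA : Prop :=
  ∀ (F ι Λ : Type) [Field F] [Fintype ι] [Ring Λ] [Algebra F Λ] (μ : ι → ℤ)
    (ev : MvPolynomial ι F →ₗ[F] Λ) (Fl : ℤ → Submodule F Λ), FZ μ ev Fl →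
    ∀ (n : ℕ) (σ : Fin n → ℤ) (J : Submodule Λ (Fin n → Λ)),
    ∃ (n' : ℕ) (σ' : Fin n' → ℤ) (d : Matrix (Fin n') (Fin n) Λ)
      (δ : Matrix (Fin n') (Fin n) (MvPolynomial ι F)),
      (∀ a, d a ∈ J) ∧ (∀ a b, Sy μ ev Fl (σ' a - σ b) (d a b) (δ a b)) ∧ G1 μ ev Fl σ σ' J δ

-- deps:
def S_GENB : Prop :=
  ∀ (F ι Λ : Type) [Field F] [Ring Λ] [Algebra F Λ] (μ : ι → ℤ)
    (ev : MvPolynomial ι F →ₗ[F] Λ) (Fl : ℤ → Submodule F Λ), FZ μ ev Fl →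
    ∀ (n n' : ℕ) (σ : Fin n → ℤ) (σ' : Fin n' → ℤ) (J : Submodule Λ (Fin n → Λ))
      (d : Matrix (Fin n') (Fin n) Λ) (δ : Matrix (Fin n') (Fin n) (MvPolynomial ι F)),
      (∀ a, d a ∈ J) → (∀ a b, Sy μ ev Fl (σ' a - σ b) (d a b) (δ a b)) →
      G1 μ ev Fl σ σ' J δ → G2 Fl σ σ' J d

-- deps: GENA GENB
def S_RES : Prop :=
  ∀ (F ι Λ : Type) [Field F] [Fintype ι] [Ring Λ] [Algebra F Λ] (μ : ι → ℤ)
    (ev : MvPolynomial ι F →ₗ[F] Λ) (Fl : ℤ → Submodule F Λ), FZ μ ev Fl →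
    ∀ J : Submodule Λ Λ,
    ∃ (n : ℕ → ℕ) (σ : ∀ j, Fin (n j) → ℤ) (d : ∀ j, Matrix (Fin (n (j + 1))) (Fin (n j)) Λ)
      (δ : ∀ j, Matrix (Fin (n (j + 1))) (Fin (n j)) (MvPolynomial ι F)),
      IsEmpty (Fin (n 0)) ∧ Nonempty (Fin (n 1)) ∧
      (∀ j a b, Sy μ ev Fl (σ (j + 1) a - σ j b) (d j a b) (δ j a b)) ∧
      (∀ j, d (j + 1) * d j = 0) ∧ (∀ j, δ (j + 1) * δ j = 0) ∧ (∀ a b, d 1 a b ∈ J) ∧
      (∀ f ∈ grI μ ev Fl J, ∃ s : Matrix (Fin (n 1)) (Fin (n 2)) (MvPolynomial ι F),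
        s * δ 1 = f • (1 : Matrix (Fin (n 1)) (Fin (n 1)) (MvPolynomial ι F))) ∧
      ∀ j Q, Matrix.vecMul Q (δ (j + 1)) = 0 → ∃ q, Matrix.vecMul q (δ (j + 2)) = Q

-- deps:
def S_VAN : Prop :=
  ∀ (S : Type) [CommRing S] (n : ℕ → ℕ) (δ : ∀ j, Matrix (Fin (n (j + 1))) (Fin (n j)) S)
    (I : Ideal S), IsEmpty (Fin (n 0)) → (∀ j, δ (j + 1) * δ j = 0) →
    (∀ f ∈ I, ∃ s : Matrix (Fin (n 1)) (Fin (n 2)) S,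
      s * δ 1 = f • (1 : Matrix (Fin (n 1)) (Fin (n 1)) S)) →
    (∀ j Q, Matrix.vecMul Q (δ (j + 1)) = 0 → ∃ q, Matrix.vecMul q (δ (j + 2)) = Q) →
    ∀ l : List S, (∀ f ∈ l, f ∈ I) → RingTheory.Sequence.IsWeaklyRegular S l →
    Ex n δ S l.length

-- deps:
def S_LIFTX : Prop :=
  ∀ (F ι Λ : Type) [Field F] [Ring Λ] [Algebra F Λ] (μ : ι → ℤ)
    (ev : MvPolynomial ι F →ₗ[F] Λ) (Fl : ℤ → Submodule F Λ), FZ μ ev Fl →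
    ∀ (n : ℕ → ℕ) (σ : ∀ j, Fin (n j) → ℤ) (d : ∀ j, Matrix (Fin (n (j + 1))) (Fin (n j)) Λ)
      (δ : ∀ j, Matrix (Fin (n (j + 1))) (Fin (n j)) (MvPolynomial ι F)),
      (∀ j a b, Sy μ ev Fl (σ (j + 1) a - σ j b) (d j a b) (δ j a b)) →
      (∀ j, d (j + 1) * d j = 0) → ∀ c, Ex n δ (MvPolynomial ι F) c →
      ∀ r : ℕ, Ex n d (Fin r → Λ) c

-- deps:
def S_SNAKE : Prop :=
  ∀ (R M : Type) [Ring R] [AddCommGroup M] [Module R M] (n : ℕ → ℕ)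
    (d : ∀ j, Matrix (Fin (n (j + 1))) (Fin (n j)) R), (∀ j, d (j + 1) * d j = 0) →
    ∀ (g : ℕ) (x : Fin g → Module.End R M), (∀ i j, Commute (x i) (x j)) →
    ∀ k c : ℕ, (∀ j : Fin g, j.val < k → ∀ m, x j m ∈ Kx x j → m ∈ Kx x j) →
    Ex n d M (c + k) → Ex n d (M ⧸ Kx x k) c

-- deps:
def S_REG : Prop :=
  ∀ (F ι : Type) [Field F] [Fintype ι] (I : Ideal (MvPolynomial ι F)) (e c : ℕ), DEP I e →
    c + e ≤ Fintype.card ι → ∃ l : List (MvPolynomial ι F), l.length = c ∧ (∀ f ∈ l, f ∈ I) ∧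
      RingTheory.Sequence.IsWeaklyRegular (MvPolynomial ι F) l

-- deps:
def S_GRA : Prop :=
  ∀ (F ι Λ : Type) [Field F] [Ring Λ] [Algebra F Λ] (μ : ι → ℤ)
    (ev : MvPolynomial ι F →ₗ[F] Λ) (Fl : ℤ → Submodule F Λ), FZ μ ev Fl →
    ∀ (J : Submodule Λ Λ) (s : ℕ), Module.rank F (Vs μ (grI μ ev Fl J) s) ≤
      Module.rank F (Λ ⧸ (Fl s ⊔ J.restrictScalars F))

-- deps:
def S_GRB : Prop :=
  ∀ (F ι : Type) [Field F] (μ : ι → ℤ) (I : Ideal (MvPolynomial ι F)) (C e : ℕ),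
    (∀ s : ℕ, Module.rank F (Vs μ I s) ≤ (C * (s + 1) ^ e : ℕ)) → DEP I e

-- deps: GENA GENB
def S_AR : Prop :=
  ∀ (F ι Λ : Type) [Field F] [Fintype ι] [Ring Λ] [Algebra F Λ] (μ : ι → ℤ)
    (ev : MvPolynomial ι F →ₗ[F] Λ) (Fl : ℤ → Submodule F Λ), FZ μ ev Fl →
    ∀ (r : ℕ) (K : Submodule Λ (Fin r → Λ)) (t : Fin r → Λ), ∃ c : ℕ, ∀ (s : ℤ) (a : Λ),
      a • t ∈ FlM Fl r (s + c) ⊔ K.restrictScalars F → ∃ b ∈ Fl s, (a - b) • t ∈ K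

-- deps: FD
def S_GR1 : Prop :=
  ∀ (F ι Λ : Type) [Field F] [Fintype ι] [Ring Λ] [Algebra F Λ] (μ : ι → ℤ)
    (ev : MvPolynomial ι F →ₗ[F] Λ) (Fl : ℤ → Submodule F Λ), FZ μ ev Fl →
    ∀ (r g : ℕ) (x : Fin g → Module.End Λ (Fin r → Λ)), (∀ i j, Commute (x i) (x j)) →
    ∀ a : ℕ, (∀ j m, (x j ^ a) m ∈ FlM Fl r 1) → ∀ C e : ℕ,
    (∀ s : ℕ, Module.finrank F ((Fin r → Λ) ⧸ (FlM Fl r s ⊔ (Kx x g).restrictScalars F)) ≤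
      C * (s + 1) ^ e) →
    ∀ k ≤ g, ∃ C' : ℕ, ∀ s : ℕ,
      Module.finrank F ((Fin r → Λ) ⧸ (FlM Fl r s ⊔ (Kx x k).restrictScalars F)) ≤
        C' * (s + 1) ^ (e + (g - k))

-- deps: FD AR
def S_GR2 : Prop :=
  ∀ (F ι Λ : Type) [Field F] [Fintype ι] [Ring Λ] [Algebra F Λ] (μ : ι → ℤ)
    (ev : MvPolynomial ι F →ₗ[F] Λ) (Fl : ℤ → Submodule F Λ), FZ μ ev Fl →
    ∀ (r : ℕ) (K : Submodule Λ (Fin r → Λ)) (x : Module.End Λ (Fin r → Λ)) (t : Fin r → Λ),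
    (∀ m ∈ K, x m ∈ K) → x t ∈ K → ∃ c : ℕ, ∀ s : ℤ,
      Module.finrank F (Λ ⧸ (Fl s ⊔
        (K.comap (LinearMap.toSpanSingleton Λ (Fin r → Λ) t)).restrictScalars F)) ≤
      Module.finrank F ((Fin r → Λ) ⧸
        (FlM Fl r (s + c) ⊔ (K ⊔ LinearMap.range x).restrictScalars F))

-- deps: TOZ FD RES VAN LIFTX SNAKE REG GRA GRB GR1 GR2
def S_ABS : Prop :=
  ∀ (F ι Λ : Type) [Field F] [Fintype ι] [Ring Λ] [Algebra F Λ] (μ : ι → ℕ)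
    (ev : MvPolynomial ι F →ₗ[F] Λ) (Fl : ℕ → Submodule F Λ), FR μ ev Fl →
    ∀ (r g : ℕ) (x : Fin g → Module.End Λ (Fin r → Λ)), (∀ i j, Commute (x i) (x j)) →
    ∀ a : ℕ, (∀ j m, (x j ^ a) m ∈ FlM Fl r 1) → ∀ C e : ℕ,
    (∀ s : ℕ, Module.finrank F ((Fin r → Λ) ⧸ (FlM Fl r s ⊔ (Kx x g).restrictScalars F)) ≤
      C * (s + 1) ^ e) →
    e + g ≤ Fintype.card ι → ∀ (k : Fin g) (m : Fin r → Λ), x k m ∈ Kx x k → m ∈ Kx x k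

end Pool.Agent.P.MP_7cb106_nt.PF
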